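import Mathlib

/-! Stage approximations of partial recursive functions. -/

set_option autoImplicit false

namespace Pool.Agent.Helper94.KC

open Encodable

/-- Every partial recursive function has a primitive recursive, monotone stage approximation. -/
theorem exists_approx {α β : Type} [Primcodable α] [Primcodable β] {f : α →. β}
    (hf : Partrec f) :
    ∃ ap : ℕ → α → Option β, Primrec₂ ap ∧
      (∀ s t a b, s ≤ t → ap s a = some b → ap t a = some b) ∧
      (∀ a b, b ∈ f a ↔ ∃ s, ap s a = some b) := by
  obtain ⟨c, hc⟩ := Nat.Partrec.Code.exists_code.1 hf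
  refine ⟨fun s a => (Nat.Partrec.Code.evaln s c (encode a)).bind (fun n => decode (α := β) n),
    ?_, ?_, ?_⟩
  · refine Primrec.option_bind ?_ ?_
    · exact Nat.Partrec.Code.primrec_evaln.comp
        ((Primrec.fst.pair (Primrec.const c)).pair (Primrec.encode.comp Primrec.snd))
    · exact (Primrec.decode.comp Primrec.snd).to₂
  · intro s t a b hst h
    rw [Option.bind_eq_some_iff] at h ⊢
    obtain ⟨n, hn, hb⟩ := h
    exact ⟨n, Nat.Partrec.Code.evaln_mono hst hn, hb⟩
  · intro a b
    have key : ∀ n, n ∈ c.eval (encode a) ↔ ∃ b ∈ f a, encode b = n := by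
      intro n
      rw [hc]
      simp [Part.mem_bind_iff, encodek]
    constructor
    · intro hb
      have : encode b ∈ c.eval (encode a) := (key _).2 ⟨b, hb, rfl⟩
      obtain ⟨k, hk⟩ := Nat.Partrec.Code.evaln_complete.1 this
      refine ⟨k, ?_⟩
      rw [Option.bind_eq_some_iff]
      exact ⟨_, hk, encodek b⟩
    · rintro ⟨s, hs⟩
      rw [Option.bind_eq_some_iff] at hs
      obtain ⟨n, hn, hb⟩ := hs
      have := Nat.Partrec.Code.evaln_sound hn
      obtain ⟨b', hb', rfl⟩ := (key n).1 this
      rw [encodek] at hb
      cases hb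
      exact hb'

end Pool.Agent.Helper94.KC
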