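import Pool.Agent.Helper94.KC.Strings

/-! Counting lemmas and the finite Kraft inequality. -/

set_option autoImplicit false

namespace Pool.Agent.Helper94.KC

open Finset

/-- All bit strings of length `n` as a finset. -/
def finS (n : ℕ) : Finset (List Bool) := (allS n).toFinset

theorem mem_finS {n : ℕ} {l : List Bool} : l ∈ finS n ↔ l.length = n := by
  simp [finS, mem_allS]

theorem card_finS (n : ℕ) : (finS n).card = 2 ^ n := by
  rw [finS, List.toFinset_card_of_nodup (nodup_allS n), length_allS]

open Classical in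
theorem big_iff {y : ℕ} {P : List Bool → Prop} :
    Big y P ↔ 2 ^ y ≤ 4 * ((finS y).filter P).card := by
  have h : (finS y).filter P = ((allS y).filter (fun i => decide (P i))).toFinset := by
    ext i
    simp [finS]
  unfold Big
  rw [h, List.toFinset_card_of_nodup ((nodup_allS y).filter _)]

theorem Big.mono {y : ℕ} {P Q : List Bool → Prop} (h : Big y P)
    (hPQ : ∀ i, i.length = y → P i → Q i) : Big y Q := by
  classical
  rw [big_iff] at h ⊢
  refine h.trans (Nat.mul_le_mul_left 4 (card_le_card ?_))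
  intro i hi
  rw [mem_filter, mem_finS] at hi ⊢
  exact ⟨hi.1, hPQ i hi.1 hi.2⟩

/-- If three predicates cover everything then one of the first two holds for a quarter of strings,
or the last holds for a quarter of strings. -/
theorem big_cover {y : ℕ} {P Q R : List Bool → Prop}
    (h : ∀ i, i.length = y → P i ∨ Q i ∨ R i) : Big y P ∨ Big y Q ∨ Big y R := by
  classical
  by_contra hcon
  push Not at hcon
  obtain ⟨h1, h2, h3⟩ := hcon
  rw [big_iff, not_le] at h1 h2 h3
  have hsub : finS y ⊆ (finS y).filter P ∪ ((finS y).filter Q ∪ (finS y).filter R) := by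
    intro i hi
    have hi' := mem_finS.1 hi
    rcases h i hi' with h | h | h
    · exact mem_union_left _ (mem_filter.2 ⟨hi, h⟩)
    · exact mem_union_right _ (mem_union_left _ (mem_filter.2 ⟨hi, h⟩))
    · exact mem_union_right _ (mem_union_right _ (mem_filter.2 ⟨hi, h⟩))
  have hc := card_le_card hsub
  have hc1 := card_union_le ((finS y).filter P) ((finS y).filter Q ∪ (finS y).filter R)
  have hc2 := card_union_le ((finS y).filter Q) ((finS y).filter R)
  rw [card_finS] at hc
  omega

/-- Compactness: if `P s` is monotone in `s` and eventually a quarter holds, then it holds at some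
finite stage. -/
theorem big_limit {y : ℕ} {P : ℕ → List Bool → Prop}
    (hmono : ∀ s t i, s ≤ t → P s i → P t i) (h : Big y (fun i => ∃ s, P s i)) :
    ∃ s, ∀ t, s ≤ t → Big y (P t) := by
  classical
  choose! f hf using fun (i : List Bool) (hi : ∃ s, P s i) => hi
  refine ⟨(finS y).sup f, fun t ht => h.mono fun i hi hP => ?_⟩
  refine hmono _ _ i ?_ (hf i hP)
  exact (Finset.le_sup (mem_finS.2 hi)).trans ht

theorem count_bound {ι κ : Type} (I : Finset ι) (T : Finset κ) {y : ℕ}
    (P : ι → List Bool → Prop) (hBig : ∀ j ∈ I, Big y (P j)) (f : ι → List Bool → κ)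
    (hf : ∀ j ∈ I, ∀ i, i.length = y → P j i → f j i ∈ T)
    (hinj : ∀ j ∈ I, ∀ i, i.length = y → P j i → ∀ j' ∈ I, ∀ i', i'.length = y → P j' i' →
      f j i = f j' i' → j = j' ∧ i = i') :
    I.card * 2 ^ y ≤ 4 * T.card := by
  classical
  have h1 : (I.sigma (fun j => (finS y).filter (P j))).card ≤ T.card := by
    apply card_le_card_of_injOn (fun x => f x.1 x.2)
    · intro x hx
      rw [mem_coe, mem_sigma, mem_filter, mem_finS] at hx
      exact hf _ hx.1 _ hx.2.1 hx.2.2
    · intro x hx x' hx' heq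
      rw [mem_coe, mem_sigma, mem_filter, mem_finS] at hx hx'
      obtain ⟨h1, h2⟩ := hinj _ hx.1 _ hx.2.1 hx.2.2 _ hx'.1 _ hx'.2.1 hx'.2.2 heq
      cases x; cases x'
      simp only at h1 h2
      subst h1; subst h2; rfl
  rw [card_sigma] at h1
  calc I.card * 2 ^ y = ∑ j ∈ I, 2 ^ y := by simp
    _ ≤ ∑ j ∈ I, 4 * ((finS y).filter (P j)).card :=
        sum_le_sum fun j hj => big_iff.1 (hBig j hj)
    _ = 4 * ∑ j ∈ I, ((finS y).filter (P j)).card := by rw [mul_sum]
    _ ≤ 4 * T.card := Nat.mul_le_mul_left 4 h1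

/-- Finite Kraft inequality for prefix-free sets. -/
theorem kraft {n : ℕ} (Q : Finset (List Bool)) (hlen : ∀ p ∈ Q, p.length ≤ n)
    (hpf : ∀ p ∈ Q, ∀ q ∈ Q, p <+: q → p = q) : ∑ p ∈ Q, 2 ^ (n - p.length) ≤ 2 ^ n := by
  classical
  have hcard : ∀ p ∈ Q, ((finS (n - p.length)).image (fun r => p ++ r)).card
      = 2 ^ (n - p.length) := by
    intro p _
    rw [card_image_of_injective, card_finS]
    intro a b h
    exact List.append_cancel_left h
  have hdisj : (Q : Set (List Bool)).PairwiseDisjoint
      (fun p => (finS (n - p.length)).image (fun r => p ++ r)) := by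
    intro p hp q hq hne
    rw [Function.onFun, disjoint_left]
    intro x hx hx'
    rw [mem_image] at hx hx'
    obtain ⟨r, _, rfl⟩ := hx
    obtain ⟨r', _, h⟩ := hx'
    apply hne
    rcases List.prefix_or_prefix_of_prefix (List.prefix_append p r)
      (h ▸ List.prefix_append q r') with h | h
    · exact hpf p hp q hq h
    · exact (hpf q hq p hp h).symm
  calc ∑ p ∈ Q, 2 ^ (n - p.length)
      = ∑ p ∈ Q, ((finS (n - p.length)).image (fun r => p ++ r)).card :=
        (sum_congr rfl hcard).symm
    _ = (Q.biUnion (fun p => (finS (n - p.length)).image (fun r => p ++ r))).card :=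
        (card_biUnion hdisj).symm
    _ ≤ (finS n).card := by
        apply card_le_card
        intro x hx
        rw [mem_biUnion] at hx
        obtain ⟨p, hp, hx⟩ := hx
        rw [mem_image] at hx
        obtain ⟨r, hr, rfl⟩ := hx
        rw [mem_finS] at hr ⊢
        rw [List.length_append, hr]
        have := hlen p hp
        omega
    _ = 2 ^ n := card_finS n

/-- Kraft inequality in the form used in the game: for each `m` in `I`, a quarter of the strings
`i` of length `y m` have programs of length less than `k m + y m`, all these programs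
being different and prefix-free. -/
theorem kraft_game {n : ℕ} (I : Finset ℕ) (y k : ℕ → ℕ) (P : ℕ → List Bool → Prop)
    (hBig : ∀ m ∈ I, Big (y m) (P m)) (f : ℕ → List Bool → List Bool)
    (hlen : ∀ m ∈ I, ∀ i, i.length = y m → P m i → (f m i).length ≤ k m + y m)
    (hn : ∀ m ∈ I, k m + y m ≤ n)
    (hinj : ∀ m ∈ I, ∀ i, i.length = y m → P m i → ∀ m' ∈ I, ∀ i', i'.length = y m' → P m' i' →
      f m i <+: f m' i' → m = m' ∧ i = i') :
    ∑ m ∈ I, 2 ^ (n - k m) ≤ 4 * 2 ^ n := by
  classical
  have hpair : ∀ (m : ℕ), m ∈ I → ∀ (i : List Bool), i.length = y m → P m i → f m i <+: f m i :=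
    fun _ _ _ _ _ => List.prefix_refl _
  set T : Finset (Σ _ : ℕ, List Bool) := I.sigma (fun m => (finS (y m)).filter (P m)) with hT
  set g : (Σ _ : ℕ, List Bool) → List Bool := fun x => f x.1 x.2 with hg
  have hmemT : ∀ x, x ∈ T ↔ x.1 ∈ I ∧ x.2.length = y x.1 ∧ P x.1 x.2 := by
    intro x
    rw [hT, mem_sigma, mem_filter, mem_finS]
  have hginj : Set.InjOn g T := by
    intro x hx x' hx' heq
    rw [mem_coe, hmemT] at hx hx'
    obtain ⟨h1, h2⟩ := hinj _ hx.1 _ hx.2.1 hx.2.2 _ hx'.1 _ hx'.2.1 hx'.2.2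
      (by rw [hg] at heq; simp only at heq; rw [heq])
    cases x; cases x'
    simp only at h1 h2
    subst h1; subst h2; rfl
  have hk : ∑ p ∈ T.image g, 2 ^ (n - p.length) ≤ 2 ^ n := by
    apply kraft
    · intro p hp
      rw [mem_image] at hp
      obtain ⟨x, hx, rfl⟩ := hp
      rw [hmemT] at hx
      exact (hlen _ hx.1 _ hx.2.1 hx.2.2).trans (hn _ hx.1)
    · intro p hp q hq hpq
      rw [mem_image] at hp hq
      obtain ⟨x, hx, rfl⟩ := hp
      obtain ⟨x', hx', rfl⟩ := hq
      rw [hmemT] at hx hx'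
      obtain ⟨h1, h2⟩ := hinj _ hx.1 _ hx.2.1 hx.2.2 _ hx'.1 _ hx'.2.1 hx'.2.2 hpq
      cases x; cases x'
      simp only at h1 h2
      subst h1; subst h2; rfl
  rw [sum_image hginj, hT, sum_sigma] at hk
  calc ∑ m ∈ I, 2 ^ (n - k m) ≤ ∑ m ∈ I, 4 * ∑ i ∈ (finS (y m)).filter (P m),
        2 ^ (n - (g ⟨m, i⟩).length) := by
        apply sum_le_sum
        intro m hm
        have h1 : 2 ^ (n - k m) = 2 ^ y m * 2 ^ (n - (k m + y m)) := by
          rw [← pow_add]; congr 1; have := hn m hm; omega
        have h2 : ((finS (y m)).filter (P m)).card * 2 ^ (n - (k m + y m)) ≤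
            ∑ i ∈ (finS (y m)).filter (P m), 2 ^ (n - (g ⟨m, i⟩).length) := by
          rw [← smul_eq_mul, ← sum_const]
          apply sum_le_sum
          intro i hi
          rw [mem_filter, mem_finS] at hi
          apply Nat.pow_le_pow_right (by norm_num)
          have := hlen m hm i hi.1 hi.2
          simp only [hg]
          omega
        rw [h1]
        calc 2 ^ y m * 2 ^ (n - (k m + y m))
            ≤ (4 * ((finS (y m)).filter (P m)).card) * 2 ^ (n - (k m + y m)) :=
              Nat.mul_le_mul_right _ (big_iff.1 (hBig m hm))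
          _ = 4 * (((finS (y m)).filter (P m)).card * 2 ^ (n - (k m + y m))) := by ring
          _ ≤ _ := Nat.mul_le_mul_left 4 h2
    _ = 4 * ∑ m ∈ I, ∑ i ∈ (finS (y m)).filter (P m), 2 ^ (n - (g ⟨m, i⟩).length) := by
        rw [mul_sum]
    _ ≤ 4 * 2 ^ n := Nat.mul_le_mul_left 4 hk

end Pool.Agent.Helper94.KC
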