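import Pool.Agent.Helper94.KC.Run

/-! Existence of optimal machines. -/

set_option autoImplicit false

namespace Pool.Agent.Helper94.KC

open Encodable
open Nat.Partrec (Code)

/-- The universal plain machine. -/
def Wu (p : List Bool) : Part (List Bool) :=
  (Code.eval (Denumerable.ofNat Code (lead p)) (encode (rest p))).bind
    (fun n => ((decode n : Option (List Bool)) : Part (List Bool)))

theorem partrec_Wu : Partrec Wu := by
  refine Partrec.bind ?_ ?_
  · exact Code.eval_part.comp ((Primrec.ofNat Code).comp P_lead).to_comp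
      ((Primrec.encode.comp P_rest).to_comp)
  · exact (Computable.ofOption (Computable.decode.comp Computable.snd))

theorem code_of {α β : Type} [Primcodable α] [Primcodable β] {M : α →. β} (hM : Partrec M) :
    ∃ e : Code, ∀ a n, n ∈ e.eval (encode a) ↔ ∃ b ∈ M a, encode b = n := by
  obtain ⟨c, hc⟩ := Code.exists_code.1 hM
  refine ⟨c, fun a n => ?_⟩
  rw [hc]
  simp [encodek]

theorem Wu_optimal (M : List Bool →. List Bool) (hM : Partrec M) :
    ∃ c : ℕ, ∀ (p : List Bool) (z : List Bool), z ∈ M p →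
      ∃ q : List Bool, q.length ≤ p.length + c ∧ z ∈ Wu q := by
  obtain ⟨e, he⟩ := code_of hM
  refine ⟨encode e + 1, fun p z hz => ⟨mkx (encode e) p, ?_, ?_⟩⟩
  · rw [length_mkx]; omega
  · unfold Wu
    rw [lead_mkx, rest_mkx, Denumerable.ofNat_encode, Part.mem_bind_iff]
    refine ⟨encode z, (he p _).2 ⟨z, hz, rfl⟩, ?_⟩
    rw [encodek]
    simp

/-- The universal conditional plain machine. -/
def Uu (p : List Bool) (y : List Bool × ℕ) : Part ℕ :=
  (Code.eval (Denumerable.ofNat Code (lead p)) (encode (rest p, y)))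

theorem partrec_Uu : Partrec₂ Uu := by
  refine Code.eval_part.comp ((Primrec.ofNat Code).comp (P_lead.comp Primrec.fst)).to_comp ?_
  exact (Primrec.encode.comp ((P_rest.comp Primrec.fst).pair Primrec.snd)).to_comp

theorem Uu_optimal (M : List Bool → (List Bool × ℕ →. ℕ)) (hM : Partrec₂ M) :
    ∃ c : ℕ, ∀ (p : List Bool) (y : List Bool × ℕ) (z : ℕ), z ∈ M p y →
      ∃ q : List Bool, q.length ≤ p.length + c ∧ z ∈ Uu q y := by
  obtain ⟨e, he⟩ := code_of hM
  refine ⟨encode e + 1, fun p y z hz => ⟨mkx (encode e) p, ?_, ?_⟩⟩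
  · rw [length_mkx]; omega
  · unfold Uu
    rw [lead_mkx, rest_mkx, Denumerable.ofNat_encode]
    exact (he (p, y) _).2 ⟨z, hz, rfl⟩

/-- The conflict predicate for the universal prefix-free machine. -/
def bad (p : List Bool) (s : ℕ) : Prop :=
  mkx (lead p) (rest p) ≠ p ∨ ∃ r ∈ allLt s, r ≠ rest p ∧
    (r = (rest p).take r.length ∨ rest p = r.take (rest p).length) ∧
    (Code.evaln s (Denumerable.ofNat Code (lead p)) (encode r)).isSome = true

theorem P_bad : PrimrecPred (fun g : List Bool × ℕ => bad g.1 g.2) := by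
  unfold bad
  refine PrimrecPred.or (PrimrecPred.not ?_) ?_
  · exact Primrec.eq.comp (primrec_mkx.comp (P_lead.comp Primrec.fst) (P_rest.comp Primrec.fst))
      Primrec.fst
  · refine primrecPred_exLt (γ := List Bool × ℕ) (R := fun r g => r ≠ rest g.1 ∧
      (r = (rest g.1).take r.length ∨ rest g.1 = r.take (rest g.1).length) ∧
      (Code.evaln g.2 (Denumerable.ofNat Code (lead g.1)) (encode r)).isSome = true) ?_
      Primrec.snd
    have h1 : Primrec (fun x : List Bool × (List Bool × ℕ) => x.1) := Primrec.fst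
    have h2 : Primrec (fun x : List Bool × (List Bool × ℕ) => rest x.2.1) :=
      P_rest.comp (Primrec.fst.comp Primrec.snd)
    refine PrimrecPred.and (PrimrecPred.not (Primrec.eq.comp h1 h2)) (PrimrecPred.and
      (PrimrecPred.or ?_ ?_) ?_)
    · exact Primrec.eq.comp h1 (Primrec.list_take.comp (Primrec.list_length.comp h1) h2)
    · exact Primrec.eq.comp h2 (Primrec.list_take.comp (Primrec.list_length.comp h2) h1)
    · refine Primrec.eq.comp (Primrec.option_isSome.comp ?_) (Primrec.const true)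
      exact Code.primrec_evaln.comp (((Primrec.snd.comp Primrec.snd).pair
        ((Primrec.ofNat Code).comp (P_lead.comp (Primrec.fst.comp Primrec.snd)))).pair
        (Primrec.encode.comp h1))

open Classical in
/-- One stage of the universal prefix-free machine. -/
noncomputable def gV (p : List Bool) (s : ℕ) : Option (Option (List Bool)) :=
  (Code.evaln s (Denumerable.ofNat Code (lead p)) (encode (rest p))).map
    (fun n => if bad p s then none else (decode n : Option (List Bool)))

theorem P_gV : Primrec₂ gV := by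
  classical
  refine Primrec.option_map ?_ ?_
  · exact Code.primrec_evaln.comp ((Primrec.snd.pair
      ((Primrec.ofNat Code).comp (P_lead.comp Primrec.fst))).pair
      (Primrec.encode.comp (P_rest.comp Primrec.fst)))
  · refine Primrec.ite (P_bad.comp Primrec.fst) (Primrec.const none) ?_
    exact Primrec.decode.comp Primrec.snd

/-- The universal prefix-free machine. -/
noncomputable def Vu (p : List Bool) : Part (List Bool) :=
  (Nat.rfindOpt (gV p)).bind (fun o => (o : Part (List Bool)))

theorem partrec_Vu : Partrec Vu := by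
  refine Partrec.bind (Partrec.rfindOpt P_gV.to_comp) ?_
  exact Computable.ofOption Computable.snd

theorem rfindOpt_least {α : Type} {f : ℕ → Option α} {a : α} (h : a ∈ Nat.rfindOpt f) :
    ∃ n, f n = some a ∧ ∀ m < n, f m = none := by
  unfold Nat.rfindOpt at h
  obtain ⟨n, hn, ha⟩ := Part.mem_bind_iff.1 h
  refine ⟨n, by simpa using ha, fun m hm => ?_⟩
  have := Nat.rfind_min hn hm
  simpa using this

theorem gV_isSome {p : List Bool} {s : ℕ} {o : Option (List Bool)} (h : gV p s = some o) :
    ∃ n, Code.evaln s (Denumerable.ofNat Code (lead p)) (encode (rest p)) = some n ∧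
      ((bad p s ∧ o = none) ∨ (¬ bad p s ∧ o = decode n)) := by
  unfold gV at h
  rw [Option.map_eq_some_iff] at h
  obtain ⟨n, hn, ho⟩ := h
  refine ⟨n, hn, ?_⟩
  split_ifs at ho with hb
  · left; exact ⟨hb, ho.symm⟩
  · right; exact ⟨hb, ho.symm⟩

theorem Vu_dom {p : List Bool} (h : (Vu p).Dom) : ∃ s, ¬ bad p s ∧
    (Code.evaln s (Denumerable.ofNat Code (lead p)) (encode (rest p))).isSome = true := by
  obtain ⟨z, hz⟩ := Part.dom_iff_mem.1 h
  unfold Vu at hz
  obtain ⟨o, ho, hzo⟩ := Part.mem_bind_iff.1 hz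
  obtain ⟨s, hs, _⟩ := rfindOpt_least ho
  obtain ⟨n, hn, hb⟩ := gV_isSome hs
  refine ⟨s, ?_, by rw [hn]; rfl⟩
  rcases hb with ⟨_, rfl⟩ | ⟨hb, _⟩
  · simp at hzo
  · exact hb

theorem evaln_isSome_mono {e : Code} {s t n : ℕ} (h : s ≤ t)
    (hs : (Code.evaln s e n).isSome = true) : (Code.evaln t e n).isSome = true := by
  obtain ⟨x, hx⟩ := Option.isSome_iff_exists.1 hs
  rw [Option.isSome_iff_exists]
  exact ⟨x, Code.evaln_mono h hx⟩

theorem mem_allLt_of_evaln {e : Code} {s : ℕ} {r : List Bool}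
    (hs : (Code.evaln s e (encode r)).isSome = true) : r ∈ allLt s := by
  obtain ⟨x, hx⟩ := Option.isSome_iff_exists.1 hs
  rw [mem_allLt]
  exact lt_of_le_of_lt (length_le_encode r) (Code.evaln_bound hx)

theorem Vu_prefixFree (p q : List Bool) (hp : (Vu p).Dom) (hq : (Vu q).Dom)
    (hpq : p <+: q) : p = q := by
  obtain ⟨s, hs1, hs2⟩ := Vu_dom hp
  obtain ⟨t, ht1, ht2⟩ := Vu_dom hq
  unfold bad at hs1 ht1
  push Not at hs1 ht1
  obtain ⟨ep, hs1⟩ := hs1
  obtain ⟨eq, ht1⟩ := ht1
  have hpq' := hpq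
  rw [← ep, ← eq] at hpq'
  obtain ⟨h1, h2⟩ := mkx_prefix hpq'
  by_cases hr : rest p = rest q
  · rw [← ep, ← eq, h1, hr]
  · exfalso
    have h3 := List.prefix_iff_eq_take.1 h2
    rcases le_total s t with hst | hst
    · have h4 := evaln_isSome_mono hst hs2
      rw [h1] at h4
      exact ht1 (rest p) (mem_allLt_of_evaln h4) hr (Or.inl h3) h4
    · have h4 := evaln_isSome_mono hst ht2
      rw [← h1] at h4
      exact hs1 (rest q) (mem_allLt_of_evaln h4) (Ne.symm hr) (Or.inr h3) h4

theorem Vu_optimal (M : List Bool →. List Bool) (hM : Partrec M)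
    (hpf : ∀ p q : List Bool, (M p).Dom → (M q).Dom → p <+: q → p = q) :
    ∃ c : ℕ, ∀ (p : List Bool) (z : List Bool), z ∈ M p →
      ∃ q : List Bool, q.length ≤ p.length + c ∧ z ∈ Vu q := by
  obtain ⟨e, he⟩ := code_of hM
  refine ⟨encode e + 1, fun p z hz => ⟨mkx (encode e) p, ?_, ?_⟩⟩
  · rw [length_mkx]; omega
  · have hev : encode z ∈ e.eval (encode p) := (he p _).2 ⟨z, hz, rfl⟩
    obtain ⟨s0, hs0⟩ := Code.evaln_complete.1 hev
    have hdom : (Nat.rfindOpt (gV (mkx (encode e) p))).Dom := by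
      rw [Nat.rfindOpt_dom]
      refine ⟨s0, ?_⟩
      unfold gV
      rw [lead_mkx, rest_mkx, Denumerable.ofNat_encode, Option.mem_def.1 hs0]
      simp
    have ho := Part.get_mem hdom
    generalize (Nat.rfindOpt (gV (mkx (encode e) p))).get hdom = o at ho
    obtain ⟨s, hs, _⟩ := rfindOpt_least ho
    obtain ⟨n, hn, hb⟩ := gV_isSome hs
    rw [lead_mkx, rest_mkx, Denumerable.ofNat_encode] at hn
    have hnb : ¬ bad (mkx (encode e) p) s := by
      unfold bad
      rw [lead_mkx, rest_mkx, Denumerable.ofNat_encode]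
      push Not
      refine ⟨rfl, ?_⟩
      intro r _ hr hcomp hsome
      obtain ⟨x, hx⟩ := Option.isSome_iff_exists.1 hsome
      obtain ⟨b, hb1, _⟩ := (he r x).1 (Code.evaln_sound hx)
      have hd1 : (M r).Dom := Part.dom_iff_mem.2 ⟨b, hb1⟩
      have hd2 : (M p).Dom := Part.dom_iff_mem.2 ⟨z, hz⟩
      rcases hcomp with h | h
      · exact hr (hpf r p hd1 hd2 (List.prefix_iff_eq_take.2 h))
      · exact hr (hpf p r hd2 hd1 (List.prefix_iff_eq_take.2 h)).symm
    rcases hb with ⟨hb, _⟩ | ⟨_, rfl⟩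
    · exact absurd hb hnb
    · have hn2 := Code.evaln_sound (Option.mem_def.2 hn)
      have hnz : n = encode z := Part.mem_unique hn2 hev
      unfold Vu
      rw [Part.mem_bind_iff]
      refine ⟨_, ho, ?_⟩
      rw [hnz, encodek]
      simp

end Pool.Agent.Helper94.KC
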