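import Pool.Agent.Helper94.KC.Main
import Pool.Agent.Helper94.KC.Optimal

/-! The complexity of `C(x)` given `x` and `K(x)` is unbounded, for all optimal machines. -/

set_option autoImplicit false

namespace Pool.Agent.Helper94.KC

/-- For every choice of optimal machines, the plain complexity of `C(x)` given `(x, K(x))` is
unbounded. -/
theorem unbounded (W V : List Bool →. List Bool) (U : List Bool → (List Bool × ℕ →. ℕ))
    (hW : Partrec W)
    (hWo : ∀ M : List Bool →. List Bool, Partrec M →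
      ∃ c : ℕ, ∀ (p : List Bool) (z : List Bool), z ∈ M p →
        ∃ q : List Bool, q.length ≤ p.length + c ∧ z ∈ W q)
    (hV : Partrec V)
    (hVpf : ∀ p q : List Bool, (V p).Dom → (V q).Dom → p <+: q → p = q)
    (hVo : ∀ M : List Bool →. List Bool, Partrec M →
      (∀ p q : List Bool, (M p).Dom → (M q).Dom → p <+: q → p = q) →
      ∃ c : ℕ, ∀ (p : List Bool) (z : List Bool), z ∈ M p →
        ∃ q : List Bool, q.length ≤ p.length + c ∧ z ∈ V q)
    (hU : Partrec₂ U)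
    (hUo : ∀ M : List Bool → (List Bool × ℕ →. ℕ), Partrec₂ M →
      ∃ c : ℕ, ∀ (p : List Bool) (y : List Bool × ℕ) (z : ℕ), z ∈ M p y →
        ∃ q : List Bool, q.length ≤ p.length + c ∧ z ∈ U q y)
    (c : ℕ) :
    ∃ x : List Bool,
      c < sInf {n : ℕ | ∃ p : List Bool, p.length = n ∧
        sInf {m : ℕ | ∃ q : List Bool, q.length = m ∧ x ∈ W q} ∈
          U p (x, sInf {m : ℕ | ∃ q : List Bool, q.length = m ∧ x ∈ V q})} := by
  by_contra hcon
  push Not at hcon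
  obtain ⟨aV, pV, mV, cV⟩ := exists_approx hV
  obtain ⟨aW, pW, mW, cW⟩ := exists_approx hW
  obtain ⟨aU, pU, mU, cU⟩ := exists_approx (f := fun a : List Bool × (List Bool × ℕ) => U a.1 a.2) hU
  obtain ⟨c1, hc1⟩ := hVo _ (partrec_Mm pV pW pU) Mm_prefixFree
  obtain ⟨c2, hc2⟩ := hWo _ (partrec_Nm pV pW pU)
  obtain ⟨c3, hc3⟩ := hWo (fun p => Part.some p) Partrec.some
  obtain ⟨c4, hc4⟩ := hUo (fun p _ => Part.some p.length)
    (Computable.partrec (Primrec.to_comp (Primrec.list_length.comp Primrec.fst)))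
  -- a common constant
  have hcc : ∃ d, c ≤ d ∧ c1 ≤ d ∧ c2 ≤ d :=
    ⟨max c (max c1 c2), le_max_left _ _, (le_max_left _ _).trans (le_max_right _ _),
      (le_max_right _ _).trans (le_max_right _ _)⟩
  obtain ⟨d, hd, hd1, hd2⟩ := hcc
  refine main_contra (V := V) (W := W) (U := U) (aV := aV) (aW := aW) (aU := aU) (c := d) hVpf
    (fun s p x h => (cV p x).2 ⟨s, h⟩) (fun s p x h => (cW p x).2 ⟨s, h⟩)
    (fun s p x h => (cU p x).2 ⟨s, h⟩) mV mW mU (fun p x h => (cV p x).1 h)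
    (fun p x h => (cW p x).1 h) (fun p x h => (cU p x).1 h) ?_ ?_
    (fun x => sInf {m : ℕ | ∃ q : List Bool, q.length = m ∧ x ∈ V q})
    (fun x => sInf {m : ℕ | ∃ q : List Bool, q.length = m ∧ x ∈ W q}) ?_ ?_ ?_ ?_ ?_
  · intro p z h
    obtain ⟨q, hq1, hq2⟩ := hc1 p z h
    exact ⟨q, by omega, hq2⟩
  · intro p z h
    obtain ⟨q, hq1, hq2⟩ := hc2 p z h
    exact ⟨q, by omega, hq2⟩
  · intro x q h
    exact Nat.sInf_le ⟨q, rfl, h⟩
  · intro x q h
    have : (sInf {m : ℕ | ∃ q : List Bool, q.length = m ∧ x ∈ V q}) ∈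
        {m : ℕ | ∃ q : List Bool, q.length = m ∧ x ∈ V q} := Nat.sInf_mem ⟨_, q, rfl, h⟩
    exact this
  · intro x q h
    exact Nat.sInf_le ⟨q, rfl, h⟩
  · intro x
    obtain ⟨q, _, hq⟩ := hc3 x x (Part.mem_some x)
    have : (sInf {m : ℕ | ∃ q : List Bool, q.length = m ∧ x ∈ W q}) ∈
        {m : ℕ | ∃ q : List Bool, q.length = m ∧ x ∈ W q} := Nat.sInf_mem ⟨_, q, rfl, hq⟩
    exact this
  · intro x
    have hne : {n : ℕ | ∃ p : List Bool, p.length = n ∧
        sInf {m : ℕ | ∃ q : List Bool, q.length = m ∧ x ∈ W q} ∈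
          U p (x, sInf {m : ℕ | ∃ q : List Bool, q.length = m ∧ x ∈ V q})}.Nonempty := by
      obtain ⟨q, _, hq⟩ := hc4
        (List.replicate (sInf {m : ℕ | ∃ q : List Bool, q.length = m ∧ x ∈ W q}) false)
        (x, sInf {m : ℕ | ∃ q : List Bool, q.length = m ∧ x ∈ V q})
        (sInf {m : ℕ | ∃ q : List Bool, q.length = m ∧ x ∈ W q}) (by simp)
      exact ⟨_, q, rfl, hq⟩
    obtain ⟨p, hp1, hp2⟩ := Nat.sInf_mem hne
    exact ⟨p, by rw [hp1]; exact (hcon x).trans hd, hp2⟩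

end Pool.Agent.Helper94.KC
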