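import Pool.Agent.Helper94.KC.Run

/-! Invariants of the run and the unconditional bounds. -/

set_option autoImplicit false

namespace Pool.Agent.Helper94.KC

open Finset

section
variable (V W : List Bool →. List Bool) (U : List Bool → (List Bool × ℕ →. ℕ))

def Win (c m z : ℕ) : Prop :=
  Big (Yp c m) (fun i => ∃ p : List Bool, p.length < lo c m z ∧ mkx z i ∈ V p)

def Spo (c m z j : ℕ) : Prop :=
  Big (Yp c m) (fun i => ∃ p : List Bool, p.length < Yp c m + Dp c j ∧ mkx z i ∈ W p)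

def attC (c m z j : ℕ) (i : List Bool) : Prop :=
  ∃ p : List Bool, p.length < c + 1 ∧ ∃ k < 2 * c + 6, ∃ v,
    v ∈ U p (mkx z i, lo c m z + k) ∧ Yp c m + Dp c j ≤ v ∧
      (j = 0 ∨ v < Yp c m + Dp c (j - 1))

def Att (c m z j : ℕ) : Prop := Big (Yp c m) (attC U c m z j)

/-- The invariant. -/
structure Inv (c : ℕ) (t : St) : Prop where
  win : ∃ zf : ℕ → ℕ, (∀ m' < t.1, Win V c m' (zf m') ∧ zf m' < Zp c) ∧
    t.2.2.2 * 2 ^ t.2.1.length + 2 ≤ 3 * ∑ m' ∈ range t.1, 2 ^ zf m' + 2 ^ (t.2.1.length + 1)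
  spo : ∀ z' r, t.2.1[z']? = some r → Spo W c t.1 z' r
  att : ∀ j' < t.2.2.1, Att U c t.1 t.2.1.length j'

variable {V W U}

theorem Dp_anti (c : ℕ) {j j' : ℕ} (h : j ≤ j') : Dp c j' ≤ Dp c j :=
  Nat.mul_le_mul_right _ (by omega)

theorem Dp_succ {c j : ℕ} (h : j ≤ Jp c) : Dp c j = Dp c (j + 1) + (Bp c + 3) := by
  unfold Dp
  rw [← Nat.succ_mul]
  congr 1
  omega

/-- At most few columns are spoilt. -/
theorem spo_card {c m j : ℕ} (I : Finset ℕ) (hI : ∀ z ∈ I, Spo W c m z j) :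
    I.card < 2 ^ (Dp c j + 2) := by
  classical
  have hch : ∀ (z : ℕ) (i : List Bool), (∃ p : List Bool, p.length < Yp c m + Dp c j ∧
      mkx z i ∈ W p) → ∃ p : List Bool, p.length < Yp c m + Dp c j ∧ mkx z i ∈ W p :=
    fun _ _ h => h
  choose! f hf1 hf2 using hch
  have hb := count_bound I (allLt (Yp c m + Dp c j)).toFinset (y := Yp c m)
    (fun z i => ∃ p : List Bool, p.length < Yp c m + Dp c j ∧ mkx z i ∈ W p) hI f
    (fun z _ i _ h => by rw [List.mem_toFinset, mem_allLt]; exact hf1 z i h)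
    (by
      intro z _ i _ h z' _ i' _ h' heq
      have e1 := hf2 z i h
      have e2 := hf2 z' i' h'
      rw [heq] at e1
      exact mkx_inj (Part.mem_unique e1 e2))
  have hc : (allLt (Yp c m + Dp c j)).toFinset.card + 1 ≤ 2 ^ (Yp c m + Dp c j) := by
    rw [← length_allLt]
    exact Nat.succ_le_succ (List.toFinset_card_le _)
  have h4 : I.card * 2 ^ Yp c m < 2 ^ (Dp c j + 2) * 2 ^ Yp c m := by
    have : 2 ^ (Dp c j + 2) * 2 ^ Yp c m = 4 * 2 ^ (Yp c m + Dp c j) := by
      rw [pow_add, pow_add]; ring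
    rw [this]
    omega
  exact lt_of_mul_lt_mul_right h4 (Nat.zero_le _)

theorem exists_finset_filter (l : List ℕ) (j : ℕ) :
    ∃ I : Finset ℕ, I.card = (l.filter (fun r => decide (j ≤ r))).length ∧
      ∀ z ∈ I, z < l.length ∧ ∃ r, l[z]? = some r ∧ j ≤ r := by
  classical
  induction l using List.reverseRecOn with
  | nil => exact ⟨∅, by simp, by simp⟩
  | append_singleton l a ih =>
    obtain ⟨I, hI1, hI2⟩ := ih
    have hI3 : ∀ z ∈ I, z < (l ++ [a]).length ∧ ∃ r, (l ++ [a])[z]? = some r ∧ j ≤ r := by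
      intro z hz
      obtain ⟨h1, h2⟩ := hI2 z hz
      refine ⟨by rw [List.length_append]; omega, ?_⟩
      rw [List.getElem?_append_left h1]
      exact h2
    by_cases ha : j ≤ a
    · refine ⟨insert l.length I, ?_, ?_⟩
      · rw [card_insert_of_notMem, hI1, List.filter_append, List.length_append]
        · simp [ha]
        · intro h
          exact lt_irrefl _ (hI2 _ h).1
      · intro z hz
        rw [mem_insert] at hz
        rcases hz with rfl | hz
        · exact ⟨by simp, a, by simp, ha⟩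
        · exact hI3 z hz
    · refine ⟨I, ?_, hI3⟩
      rw [hI1, List.filter_append, List.length_append]
      simp [ha]

theorem Inv.filter_lt {c : ℕ} {t : St} (h : Inv V W U c t) (j : ℕ) :
    (t.2.1.filter (fun r => decide (j ≤ r))).length < 2 ^ (Dp c j + 2) := by
  obtain ⟨I, hI1, hI2⟩ := exists_finset_filter t.2.1 j
  rw [← hI1]
  apply spo_card (W := W) (m := t.1)
  intro z hz
  obtain ⟨_, r, hr, hj⟩ := hI2 z hz
  refine (h.spo z r hr).mono ?_
  rintro i _ ⟨p, hp, hx⟩
  exact ⟨p, lt_of_lt_of_le hp (Nat.add_le_add_left (Dp_anti c hj) _), hx⟩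

theorem Inv.z_lt {c : ℕ} {t : St} (h : Inv V W U c t) : t.2.1.length < Zp c := by
  have := h.filter_lt 0
  simpa [Zp] using this

theorem Inv.j_le {c : ℕ} {t : St} (h : Inv V W U c t) : t.2.2.1 ≤ Jp c := by
  classical
  set z := t.2.1.length with hz
  set m := t.1 with hm
  set j := t.2.2.1 with hj
  have hch : ∀ (j' : ℕ) (i : List Bool), attC U c m z j' i → ∃ p : List Bool, p.length < c + 1 ∧
    ∃ k < 2 * c + 6, ∃ v, v ∈ U p (mkx z i, lo c m z + k) ∧ Yp c m + Dp c j' ≤ v ∧
      (j' = 0 ∨ v < Yp c m + Dp c (j' - 1)) := fun _ _ h => h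
  choose! fp hp fk hk fv hv using hch
  have hb := count_bound (range j) (finS (Yp c m) ×ˢ (range (2 * c + 6) ×ˢ
    (allLt (c + 1)).toFinset)) (y := Yp c m)
    (fun j' i => attC U c m z j' i) (fun j' hj' => h.att j' (mem_range.1 hj'))
    (fun j' i => (i, fk j' i, fp j' i)) ?_ ?_
  · rw [card_range, card_product, card_product, card_finS, card_range] at hb
    have hc : (allLt (c + 1)).toFinset.card ≤ 2 ^ (c + 1) := by
      refine (List.toFinset_card_le _).trans ?_
      rw [← length_allLt]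
      exact Nat.le_succ _
    have h5 : j * 2 ^ Yp c m ≤ Jp c * 2 ^ Yp c m := by
      refine hb.trans ?_
      unfold Jp
      calc 4 * (2 ^ Yp c m * ((2 * c + 6) * (allLt (c + 1)).toFinset.card))
          ≤ 4 * (2 ^ Yp c m * ((2 * c + 6) * 2 ^ (c + 1))) := by gcongr
        _ = 4 * (2 * c + 6) * 2 ^ (c + 1) * 2 ^ Yp c m := by ring
    exact le_of_mul_le_mul_right h5 (by positivity)
  · intro j' _ i hi hP
    simp only [mem_product, mem_range, List.mem_toFinset, mem_allLt, mem_finS]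
    exact ⟨hi, hk j' i hP, hp j' i hP⟩
  · intro j' _ i _ hP j'' _ i' _ hP' heq
    simp only [Prod.mk.injEq] at heq
    obtain ⟨e1, e2, e3⟩ := heq
    subst e1
    refine ⟨?_, rfl⟩
    obtain ⟨m1, l1, u1⟩ := hv j' i hP
    obtain ⟨m2, l2, u2⟩ := hv j'' i hP'
    rw [e2, e3] at m1
    have hvv := Part.mem_unique m1 m2
    rw [hvv] at l1 u1
    rcases lt_trichotomy j' j'' with hlt | heq | hlt
    · exfalso
      rcases u2 with u2 | u2
      · omega
      · have := Dp_anti c (show j' ≤ j'' - 1 by omega)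
        omega
    · exact heq
    · exfalso
      rcases u1 with u1 | u1
      · omega
      · have := Dp_anti c (show j'' ≤ j' - 1 by omega)
        omega

theorem sum_bound (hpf : ∀ p q : List Bool, (V p).Dom → (V q).Dom → p <+: q → p = q)
    {c m : ℕ} {zf : ℕ → ℕ} (h : ∀ m' < m, Win V c m' (zf m') ∧ zf m' < Zp c) :
    8 * ∑ m' ∈ range m, 2 ^ zf m' ≤ 2 ^ k0 c := by
  classical
  have hch : ∀ (m' : ℕ) (i : List Bool), (∃ p : List Bool, p.length < lo c m' (zf m') ∧
    mkx (zf m') i ∈ V p) → ∃ p : List Bool, p.length < lo c m' (zf m') ∧ mkx (zf m') i ∈ V p :=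
    fun _ _ h => h
  choose! f hf1 hf2 using hch
  -- the common length
  set n := k0 c + Yp c m with hn
  have hYmono : ∀ m' < m, Yp c m' ≤ Yp c m := fun m' hm' =>
    Nat.mul_le_mul_right _ (by omega)
  have hk0 : k0 c = Zp c + 6 := rfl
  have hK := kraft_game (n := n) (range m) (Yp c) (fun m' => k0 c - zf m' - 5)
    (fun m' i => ∃ p : List Bool, p.length < lo c m' (zf m') ∧ mkx (zf m') i ∈ V p)
    (fun m' hm' => (h m' (mem_range.1 hm')).1) f ?_ ?_ ?_
  · have hterm : ∀ m' ∈ range m, 2 ^ (n - (k0 c - zf m' - 5)) =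
        2 ^ (n - k0 c) * (32 * 2 ^ zf m') := by
      intro m' hm'
      have hz := (h m' (mem_range.1 hm')).2
      rw [show (32 : ℕ) = 2 ^ 5 by norm_num, ← pow_add, ← pow_add]
      congr 1
      omega
    rw [sum_congr rfl hterm, ← mul_sum, ← mul_sum] at hK
    have h2 : 4 * 2 ^ n = 2 ^ (n - k0 c) * (4 * 2 ^ k0 c) := by
      have : n = (n - k0 c) + k0 c := by omega
      conv_lhs => rw [this, pow_add]
      ring
    rw [h2] at hK
    have h3 := le_of_mul_le_mul_left hK (by positivity : 0 < 2 ^ (n - k0 c))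
    omega
  · intro m' hm' i _ hP
    have := hf1 m' i hP
    have hz := (h m' (mem_range.1 hm')).2
    unfold lo at this
    omega
  · intro m' hm'
    have := hYmono m' (mem_range.1 hm')
    omega
  · intro m' _ i hi hP m'' _ i' hi' hP' hpre
    have e1 := hf2 m' i hP
    have e2 := hf2 m'' i' hP'
    have := hpf _ _ (Part.dom_iff_mem.2 ⟨_, e1⟩) (Part.dom_iff_mem.2 ⟨_, e2⟩) hpre
    rw [this] at e1
    obtain ⟨_, hii⟩ := mkx_inj (Part.mem_unique e1 e2)
    refine ⟨?_, hii⟩
    rw [hii, hi'] at hi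
    unfold Yp at hi
    have := Nat.eq_of_mul_eq_mul_right (Lp_pos c) hi
    omega

/-- Numeric consequences of the invariant. -/
theorem Inv.bounds (hpf : ∀ p q : List Bool, (V p).Dom → (V q).Dom → p <+: q → p = q)
    {c : ℕ} {t : St} (h : Inv V W U c t) :
    t.1 ≤ 2 ^ k0 c ∧ t.2.2.2 * 2 ^ t.2.1.length < 2 ^ k0 c := by
  obtain ⟨zf, hzf, hP⟩ := h.win
  have hs := sum_bound hpf hzf
  have hz := h.z_lt
  constructor
  · have : t.1 ≤ ∑ m' ∈ range t.1, 2 ^ zf m' := by
      calc t.1 = ∑ m' ∈ range t.1, 1 := by simp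
        _ ≤ _ := sum_le_sum fun m' _ => Nat.one_le_two_pow
    omega
  · have h2 : 2 ^ (t.2.1.length + 1) * 2 ≤ 2 ^ k0 c := by
      rw [← pow_succ]
      apply Nat.pow_le_pow_right (by norm_num)
      unfold k0
      omega
    omega

end

end Pool.Agent.Helper94.KC
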