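import Pool.Agent.Helper94.KC.Inv

/-! Main argument. -/

set_option autoImplicit false

namespace Pool.Agent.Helper94.KC

open Finset

section
variable {V W : List Bool →. List Bool} {U : List Bool → (List Bool × ℕ →. ℕ)}
variable {aV aW : ℕ → List Bool → Option (List Bool)}
  {aU : ℕ → List Bool × (List Bool × ℕ) → Option ℕ}

theorem win_sound (hV : ∀ s p x, aV s p = some x → x ∈ V p) {c s m z : ℕ}
    (h : winS aV c s m z) : Win V c m z := by
  refine Big.mono h ?_
  rintro i _ ⟨p, hp, hx⟩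
  exact ⟨p, mem_allLt.1 hp, hV s p _ hx⟩

theorem spo_sound (hW : ∀ s p x, aW s p = some x → x ∈ W p) {c s m z j : ℕ}
    (h : spoS aW c s m z j) : Spo W c m z j := by
  refine Big.mono h ?_
  rintro i _ ⟨p, hp, hx⟩
  exact ⟨p, mem_allLt.1 hp, hW s p _ hx⟩

theorem att_sound (hU : ∀ s p x, aU s p = some x → x ∈ U p.1 p.2) {c s m z j : ℕ}
    (h : attS aU c s m z j) : Att U c m z j := by
  refine Big.mono h ?_
  rintro i _ ⟨p, hp, k, hk, v, _, hx, h1⟩
  exact ⟨p, mem_allLt.1 hp, k, hk, v, hU s _ _ hx, h1⟩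

theorem win_complete (hVm : ∀ s t p x, s ≤ t → aV s p = some x → aV t p = some x)
    (hVc : ∀ p x, x ∈ V p → ∃ s, aV s p = some x) {c m z : ℕ} (h : Win V c m z) :
    ∃ s, ∀ t, s ≤ t → winS aV c t m z := by
  refine big_limit (P := fun s i => ∃ p ∈ allLt (lo c m z), aV s p = some (mkx z i)) ?_ ?_
  · rintro s t i hst ⟨p, hp, hx⟩
    exact ⟨p, hp, hVm s t _ _ hst hx⟩
  · refine Big.mono h ?_
    rintro i _ ⟨p, hp, hx⟩
    obtain ⟨s, hs⟩ := hVc _ _ hx
    exact ⟨s, p, mem_allLt.2 hp, hs⟩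

theorem spo_complete (hWm : ∀ s t p x, s ≤ t → aW s p = some x → aW t p = some x)
    (hWc : ∀ p x, x ∈ W p → ∃ s, aW s p = some x) {c m z j : ℕ} (h : Spo W c m z j) :
    ∃ s, ∀ t, s ≤ t → spoS aW c t m z j := by
  refine big_limit (P := fun s i => ∃ p ∈ allLt (Yp c m + Dp c j), aW s p = some (mkx z i)) ?_ ?_
  · rintro s t i hst ⟨p, hp, hx⟩
    exact ⟨p, hp, hWm s t _ _ hst hx⟩
  · refine Big.mono h ?_
    rintro i _ ⟨p, hp, hx⟩
    obtain ⟨s, hs⟩ := hWc _ _ hx
    exact ⟨s, p, mem_allLt.2 hp, hs⟩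

theorem att_complete (hUm : ∀ s t p x, s ≤ t → aU s p = some x → aU t p = some x)
    (hUc : ∀ (p : List Bool × (List Bool × ℕ)) x, x ∈ U p.1 p.2 → ∃ s, aU s p = some x)
    {c m z j : ℕ} (h : Att U c m z j) :
    ∃ s, ∀ t, s ≤ t → attS aU c t m z j := by
  refine big_limit (P := fun s i => ∃ p ∈ allLt (c + 1), ∃ k < 2 * c + 6, ∃ v < s,
    aU s (p, (mkx z i, lo c m z + k)) = some v ∧ Yp c m + Dp c j ≤ v ∧
      (j = 0 ∨ v < Yp c m + Dp c (j - 1))) ?_ ?_
  · rintro s t i hst ⟨p, hp, k, hk, v, hv, hx, h1⟩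
    exact ⟨p, hp, k, hk, v, lt_of_lt_of_le hv hst, hUm s t _ _ hst hx, h1⟩
  · refine Big.mono h ?_
    rintro i _ ⟨p, hp, k, hk, v, hx, h1⟩
    obtain ⟨s, hs⟩ := hUc (p, (mkx z i, lo c m z + k)) v hx
    exact ⟨max s (v + 1), p, mem_allLt.2 hp, k, hk, v,
      lt_of_lt_of_le (Nat.lt_succ_self v) (le_max_right _ _), hUm _ _ _ _ (le_max_left _ _) hs, h1⟩

theorem inv_zero (c : ℕ) : Inv V W U c (0, [], 0, 0) := by
  refine ⟨⟨fun _ => 0, by simp, by simp⟩, ?_, ?_⟩
  · intro z' r h; simp at h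
  · intro j' h; simp at h

theorem inv_step (hV : ∀ s p x, aV s p = some x → x ∈ V p)
    (hW : ∀ s p x, aW s p = some x → x ∈ W p)
    (hU : ∀ s p x, aU s p = some x → x ∈ U p.1 p.2) {c s : ℕ} {t : St}
    (h : Inv V W U c t) : Inv V W U c (step aV aW aU c s t) := by
  obtain ⟨zf, hzf, hP⟩ := h.win
  have hz := h.z_lt
  rcases step_cases (aV := aV) (aW := aW) (aU := aU) c s t with
    ⟨hw, e⟩ | ⟨hw, e⟩ | ⟨hw, e⟩ | ⟨_, _, _, e⟩
  · rw [e]
    have hw' := win_sound hV hw
    refine ⟨⟨fun m' => if m' = t.1 then t.2.1.length else zf m', ?_, ?_⟩, ?_, ?_⟩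
    · intro m' hm'
      simp only at hm' ⊢
      by_cases hmm : m' = t.1
      · rw [if_pos hmm, hmm]
        exact ⟨hw', hz⟩
      · rw [if_neg hmm]
        exact hzf m' (by omega)
    · simp only [List.length_nil, pow_zero, mul_one]
      rw [sum_range_succ]
      have hs : ∑ m' ∈ range t.1, 2 ^ (if m' = t.1 then t.2.1.length else zf m') =
          ∑ m' ∈ range t.1, 2 ^ zf m' := by
        apply sum_congr rfl
        intro m' hm'
        rw [mem_range] at hm'
        rw [if_neg (by omega)]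
      rw [hs]
      simp only [if_true]
      have h1 : (t.2.2.2 + 1) * 2 ^ t.2.1.length =
        t.2.2.2 * 2 ^ t.2.1.length + 2 ^ t.2.1.length := by ring
      rw [h1]
      rw [pow_succ] at hP
      omega
    · intro z' r h; simp at h
    · intro j' h; simp at h
  · rw [e]
    have hw' := spo_sound hW hw
    refine ⟨⟨zf, hzf, ?_⟩, ?_, ?_⟩
    · simp only [List.length_append, List.length_singleton]
      have h1 : (t.2.2.2 / 2 + 1) * 2 ^ (t.2.1.length + 1) ≤
          t.2.2.2 * 2 ^ t.2.1.length + 2 ^ (t.2.1.length + 1) := by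
        have : t.2.2.2 / 2 * 2 ≤ t.2.2.2 := Nat.div_mul_le_self _ _
        calc (t.2.2.2 / 2 + 1) * 2 ^ (t.2.1.length + 1)
            = (t.2.2.2 / 2 * 2) * 2 ^ t.2.1.length + 2 ^ (t.2.1.length + 1) := by
              rw [pow_succ]; ring
          _ ≤ _ := by gcongr
      rw [pow_succ 2 (t.2.1.length + 1)]
      omega
    · intro z' r hr
      simp only at hr ⊢
      rcases lt_trichotomy z' t.2.1.length with hlt | heq | hgt
      · rw [List.getElem?_append_left hlt] at hr
        exact h.spo z' r hr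
      · subst heq
        simp at hr
        rw [← hr]
        exact hw'
      · rw [List.getElem?_eq_none (by simp; omega)] at hr
        simp at hr
    · intro j' h; simp at h
  · rw [e]
    have hw' := att_sound hU hw
    refine ⟨⟨zf, hzf, hP⟩, h.spo, ?_⟩
    intro j' hj'
    simp only at hj' ⊢
    rcases Nat.lt_succ_iff_lt_or_eq.1 hj' with hlt | heq
    · exact h.att j' hlt
    · rw [heq]; exact hw'
  · rw [e]; exact h

theorem inv_st (hV : ∀ s p x, aV s p = some x → x ∈ V p)
    (hW : ∀ s p x, aW s p = some x → x ∈ W p)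
    (hU : ∀ s p x, aU s p = some x → x ∈ U p.1 p.2) (c s : ℕ) :
    Inv V W U c (st aV aW aU c s) := by
  induction s with
  | zero => exact inv_zero c
  | succ s ih => rw [st_succ]; exact inv_step hV hW hU ih

theorem Ep_lt (c j : ℕ) : Ep c j < Lp c := by
  have := Dp_anti c (Nat.zero_le j)
  unfold Ep Lp
  omega

theorem Bp_le_Dp {c j : ℕ} (h : j ≤ Jp c) : Bp c + 3 ≤ Dp c j := by
  unfold Dp
  exact Nat.le_mul_of_pos_left _ (by omega)

theorem Yp_Ep_inj {c m m' e e' : ℕ} (he : e < Lp c) (he' : e' < Lp c)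
    (h : Yp c m + e = Yp c m' + e') : m = m' ∧ e = e' := by
  unfold Yp at h
  have hm : m = m' := by
    rcases lt_trichotomy m m' with hlt | heq | hlt
    · exfalso
      have : (m + 1 + 1) * Lp c ≤ (m' + 1) * Lp c := Nat.mul_le_mul_right _ (by omega)
      rw [Nat.succ_mul] at this
      omega
    · exact heq
    · exfalso
      have : (m' + 1 + 1) * Lp c ≤ (m + 1) * Lp c := Nat.mul_le_mul_right _ (by omega)
      rw [Nat.succ_mul] at this
      omega
  subst hm
  exact ⟨rfl, by omega⟩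

theorem Ep_inj {c j j' : ℕ} (hj : j ≤ Jp c) (hj' : j' ≤ Jp c) (h : Ep c j = Ep c j') :
    j = j' := by
  have h1 := Bp_le_Dp hj
  have h2 := Bp_le_Dp hj'
  unfold Ep at h
  have h3 : Dp c j = Dp c j' := by omega
  unfold Dp at h3
  have := Nat.eq_of_mul_eq_mul_right (by omega) h3
  omega

theorem relN_count {t u : St} {j : ℕ} (hj : t.2.2.1 = j) (hj' : u.2.2.1 = j)
    (hm : t.1 = u.1) (h : RelN t u)
    (hc : (t.2.1.filter (fun r => decide (j ≤ r))).length =
      (u.2.1.filter (fun r => decide (j ≤ r))).length) : t.2.1 = u.2.1 := by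
  rcases h with h | ⟨_, h | ⟨r, hr, hp⟩⟩
  · omega
  · exact h.1
  · exfalso
    obtain ⟨w, hw⟩ := hp
    rw [← hw, List.filter_append, List.filter_append, List.length_append, List.length_append]
      at hc
    have hjr : decide (j ≤ r) = true := decide_eq_true (by omega)
    have : (List.filter (fun r => decide (j ≤ r)) [r]).length = 1 := by
      have hjr' : j ≤ r := by omega
      simp [hjr']
    omega

/-- Output of our plain machine. -/
theorem Nm_output {c s : ℕ} {τ i : List Bool} (hJ : ∀ s, (st aV aW aU c s).2.2.1 ≤ Jp c)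
    (hj : 1 ≤ (st aV aW aU c s).2.2.1)
    (hτ : τ.length = Ep c ((st aV aW aU c s).2.2.1 - 1))
    (hv : val τ = ((st aV aW aU c s).2.1.filter
      (fun r => decide ((st aV aW aU c s).2.2.1 ≤ r))).length)
    (hi : i.length = Yp c (st aV aW aU c s).1) :
    mkx (st aV aW aU c s).2.1.length i ∈ Nm aV aW aU (mkx c (τ ++ i)) := by
  have hok : okN c (st aV aW aU c s) (τ ++ i) := by
    refine ⟨hj, by rw [List.length_append]; omega, ?_⟩
    rw [← hτ, List.take_left, hv]
  have hdom : (Nm aV aW aU (mkx c (τ ++ i))).Dom := by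
    unfold Nm
    rw [lead_mkx, rest_mkx]
    exact Nat.rfindOpt_dom.2 ⟨s, _, chkN_eq_some.2 ⟨hok, rfl⟩⟩
  have hmem := Part.get_mem hdom
  generalize hx : (Nm aV aW aU (mkx c (τ ++ i))).get hdom = x at hmem
  have h2 := hmem
  unfold Nm at h2
  rw [lead_mkx, rest_mkx] at h2
  obtain ⟨t, ht⟩ := Nat.rfindOpt_spec h2
  obtain ⟨ht1, ht2⟩ := chkN_eq_some.1 ht
  obtain ⟨a1, a2, a3⟩ := hok
  obtain ⟨b1, b2, b3⟩ := ht1
  rw [a2] at b2
  obtain ⟨e1, e2⟩ := Yp_Ep_inj (Ep_lt c _) (Ep_lt c _) b2
  have hJs := hJ s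
  have hJt := hJ t
  have e3 := Ep_inj (by omega) (by omega) e2
  have e4 : (st aV aW aU c s).2.2.1 = (st aV aW aU c t).2.2.1 := by omega
  rw [← e2, a3] at b3
  rw [← e4] at b3
  have e5 : (st aV aW aU c s).2.1 = (st aV aW aU c t).2.1 := by
    rcases le_total s t with hst | hst
    · exact relN_count rfl e4.symm e1 (relN_st c hst) b3
    · exact (relN_count e4.symm rfl e1.symm (relN_st c hst) b3.symm).symm
  rw [← e2, ← e5, ← hτ, List.drop_left] at ht2
  rw [ht2]
  exact hmem

/-- The rank of a state. -/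
def rank (c : ℕ) (t : St) : ℕ := (t.1 * Zp c + t.2.1.length) * (Jp c + 1) + t.2.2.1

theorem rank_step {c s : ℕ} {t : St} (h : Inv V W U c t) :
    step aV aW aU c s t = t ∨ rank c t < rank c (step aV aW aU c s t) := by
  have hz := h.z_lt
  have hj := h.j_le
  rcases step_cases (aV := aV) (aW := aW) (aU := aU) c s t with
    ⟨_, e⟩ | ⟨_, e⟩ | ⟨_, e⟩ | ⟨_, _, _, e⟩
  · right; rw [e]; unfold rank
    simp only [List.length_nil, add_zero]
    have : t.1 * Zp c + t.2.1.length + 1 ≤ (t.1 + 1) * Zp c := by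
      rw [Nat.succ_mul]; omega
    have := Nat.mul_le_mul_right (Jp c + 1) this
    rw [Nat.succ_mul] at this
    omega
  · right; rw [e]; unfold rank
    simp only [List.length_append, List.length_singleton, add_zero]
    rw [← add_assoc, Nat.succ_mul]
    omega
  · right; rw [e]; unfold rank
    simp only
    omega
  · left; exact e

theorem rank_bound (hpf : ∀ p q : List Bool, (V p).Dom → (V q).Dom → p <+: q → p = q)
    {c : ℕ} {t : St} (h : Inv V W U c t) :
    rank c t ≤ (2 ^ k0 c * Zp c + Zp c) * (Jp c + 1) + Jp c := by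
  have hz := h.z_lt
  have hj := h.j_le
  have hm := (h.bounds hpf).1
  unfold rank
  gcongr

/-- The run becomes constant. -/
theorem eventually_const (hpf : ∀ p q : List Bool, (V p).Dom → (V q).Dom → p <+: q → p = q)
    {c : ℕ} (hinv : ∀ s, Inv V W U c (st aV aW aU c s)) :
    ∃ s0, ∀ s, s0 ≤ s → step aV aW aU c s (st aV aW aU c s0) = st aV aW aU c s0 ∧
      st aV aW aU c s = st aV aW aU c s0 := by
  by_contra hcon
  push Not at hcon
  have hstep : ∀ s0, ∃ s, s0 ≤ s ∧ st aV aW aU c (s + 1) ≠ st aV aW aU c s := by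
    intro s0
    by_contra h
    push Not at h
    have hconst : ∀ s, s0 ≤ s → st aV aW aU c s = st aV aW aU c s0 := by
      intro s hs
      induction s, hs using Nat.le_induction with
      | base => rfl
      | succ s hs ih => rw [h s hs, ih]
    obtain ⟨s, hs1, hs2⟩ := hcon s0
    apply hs2
    · have := h s hs1
      rw [st_succ, hconst s hs1] at this
      exact this
    · exact hconst s hs1
  have hmono : ∀ s t, s ≤ t → rank c (st aV aW aU c s) ≤ rank c (st aV aW aU c t) := by
    intro s t hst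
    induction t, hst using Nat.le_induction with
    | base => exact le_rfl
    | succ t _ ih =>
      refine ih.trans ?_
      rw [st_succ]
      rcases rank_step (aV := aV) (aW := aW) (aU := aU) (s := t) (hinv t) with h | h
      · rw [h]
      · exact h.le
  have hunb : ∀ n, ∃ s, n ≤ rank c (st aV aW aU c s) := by
    intro n
    induction n with
    | zero => exact ⟨0, Nat.zero_le _⟩
    | succ n ih =>
      obtain ⟨s, hs⟩ := ih
      obtain ⟨t, ht1, ht2⟩ := hstep s
      refine ⟨t + 1, ?_⟩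
      rw [st_succ] at ht2 ⊢
      rcases rank_step (aV := aV) (aW := aW) (aU := aU) (s := t) (hinv t) with h | h
      · exact absurd h ht2
      · have := hmono s t ht1
        omega
  obtain ⟨s, hs⟩ := hunb ((2 ^ k0 c * Zp c + Zp c) * (Jp c + 1) + Jp c + 1)
  have := rank_bound hpf (hinv s)
  omega

/-- The main contradiction. -/
theorem main_contra (hpf : ∀ p q : List Bool, (V p).Dom → (V q).Dom → p <+: q → p = q)
    (hVs : ∀ s p x, aV s p = some x → x ∈ V p)
    (hWs : ∀ s p x, aW s p = some x → x ∈ W p)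
    (hUs : ∀ s p x, aU s p = some x → x ∈ U p.1 p.2)
    (hVm : ∀ s t p x, s ≤ t → aV s p = some x → aV t p = some x)
    (hWm : ∀ s t p x, s ≤ t → aW s p = some x → aW t p = some x)
    (hUm : ∀ s t p x, s ≤ t → aU s p = some x → aU t p = some x)
    (hVc : ∀ p x, x ∈ V p → ∃ s, aV s p = some x)
    (hWc : ∀ p x, x ∈ W p → ∃ s, aW s p = some x)
    (hUc : ∀ (p : List Bool × (List Bool × ℕ)) x, x ∈ U p.1 p.2 → ∃ s, aU s p = some x)
    {c : ℕ}
    (hM : ∀ p z, z ∈ Mm aV aW aU p → ∃ q : List Bool, q.length ≤ p.length + c ∧ z ∈ V q)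
    (hN : ∀ p z, z ∈ Nm aV aW aU p → ∃ q : List Bool, q.length ≤ p.length + c ∧ z ∈ W q)
    (K C : List Bool → ℕ)
    (hK1 : ∀ x q, x ∈ V q → K x ≤ q.length)
    (hK2 : ∀ x q, x ∈ V q → ∃ p : List Bool, p.length = K x ∧ x ∈ V p)
    (hC1 : ∀ x q, x ∈ W q → C x ≤ q.length)
    (hC2 : ∀ x, ∃ p : List Bool, p.length = C x ∧ x ∈ W p)
    (hadv : ∀ x, ∃ p : List Bool, p.length ≤ c ∧ C x ∈ U p (x, K x)) : False := by
  have hinv := inv_st (V := V) (W := W) (U := U) hVs hWs hUs c
  obtain ⟨s0, hs0⟩ := eventually_const hpf hinv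
  set t := st aV aW aU c s0 with ht
  have hI : Inv V W U c t := hinv s0
  have hno : ∀ s, s0 ≤ s → ¬ winS aV c s t.1 t.2.1.length ∧
      ¬ spoS aW c s t.1 t.2.1.length t.2.2.1 ∧ ¬ attS aU c s t.1 t.2.1.length t.2.2.1 := by
    intro s hs
    have hst := (hs0 s hs).1
    rcases step_cases (aV := aV) (aW := aW) (aU := aU) c s t with
      ⟨_, e⟩ | ⟨_, e⟩ | ⟨_, e⟩ | ⟨e1, e2, e3, _⟩
    · rw [hst] at e
      have := congrArg (fun u : St => u.1) e
      simp at this
    · rw [hst] at e
      have := congrArg (fun u : St => u.2.1.length) e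
      simp at this
    · rw [hst] at e
      have := congrArg (fun u : St => u.2.2.1) e
      simp at this
    · exact ⟨e1, e2, e3⟩
  have hz := hI.z_lt
  have hj := hI.j_le
  have hk0 : k0 c = Zp c + 6 := rfl
  -- the prefix code word
  have ha : t.2.2.2 < 2 ^ (k0 c - t.2.1.length) := by
    have := (hI.bounds hpf).2
    have h2 : 2 ^ k0 c = 2 ^ (k0 c - t.2.1.length) * 2 ^ t.2.1.length := by
      rw [← pow_add]; congr 1; omega
    rw [h2] at this
    exact lt_of_mul_lt_mul_right this (Nat.zero_le _)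
  obtain ⟨σ, hσ1, hσ2⟩ := exists_val ha
  -- prefix complexity is at most the length of our description
  have hKb : ∀ i : List Bool, i.length = Yp c t.1 →
      ∃ q : List Bool, q.length ≤ k0 c - t.2.1.length + Yp c t.1 + (2 * c + 1) ∧
        mkx t.2.1.length i ∈ V q := by
    intro i hi
    have := Mm_output (aV := aV) (aW := aW) (aU := aU) (c := c) (s := s0) (σ := σ) (i := i)
      (by rw [← ht]; omega) (by rw [← ht]; exact hσ2) (by rw [← ht]; exact hi)
    obtain ⟨q, hq1, hq2⟩ := hM _ _ this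
    refine ⟨q, ?_, hq2⟩
    rw [length_mkx, List.length_append] at hq1
    omega
  -- plain complexity is below the previous threshold
  have hCb : ∀ i : List Bool, i.length = Yp c t.1 → t.2.2.1 = 0 ∨
      C (mkx t.2.1.length i) < Yp c t.1 + Dp c (t.2.2.1 - 1) := by
    intro i hi
    rcases Nat.eq_zero_or_pos t.2.2.1 with h0 | h0
    · exact Or.inl h0
    · right
      have hcount : (t.2.1.filter (fun r => decide (t.2.2.1 ≤ r))).length <
          2 ^ Ep c (t.2.2.1 - 1) := by
        refine lt_of_lt_of_le (hI.filter_lt t.2.2.1) ?_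
        apply Nat.pow_le_pow_right (by norm_num)
        have h1 := Dp_succ (c := c) (j := t.2.2.1 - 1) (by omega)
        rw [Nat.sub_add_cancel h0] at h1
        unfold Ep
        omega
      obtain ⟨τ, hτ1, hτ2⟩ := exists_val hcount
      have := Nm_output (aV := aV) (aW := aW) (aU := aU) (c := c) (s := s0) (τ := τ) (i := i)
        (fun s => (hinv s).j_le) (by rw [← ht]; exact h0) (by rw [← ht]; exact hτ1)
        (by rw [← ht]; exact hτ2) (by rw [← ht]; exact hi)
      obtain ⟨q, hq1, hq2⟩ := hN _ _ this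
      rw [← ht] at hq2
      have hle := hC1 _ _ hq2
      rw [length_mkx, List.length_append, hτ1, hi] at hq1
      have h1 := Bp_le_Dp (c := c) (j := t.2.2.1 - 1) (by omega)
      unfold Ep at hq1
      unfold Bp at h1 hq1
      omega
  have hcov := big_cover (y := Yp c t.1)
    (P := fun i => ∃ p : List Bool, p.length < lo c t.1 t.2.1.length ∧ mkx t.2.1.length i ∈ V p)
    (Q := fun i => ∃ p : List Bool, p.length < Yp c t.1 + Dp c t.2.2.1 ∧
      mkx t.2.1.length i ∈ W p)
    (R := attC U c t.1 t.2.1.length t.2.2.1) ?_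
  · rcases hcov with h | h | h
    · obtain ⟨s1, hs1⟩ := win_complete hVm hVc (show Win V c t.1 t.2.1.length from h)
      exact (hno (max s0 s1) (le_max_left _ _)).1 (hs1 _ (le_max_right _ _))
    · obtain ⟨s1, hs1⟩ := spo_complete hWm hWc (show Spo W c t.1 t.2.1.length t.2.2.1 from h)
      exact (hno (max s0 s1) (le_max_left _ _)).2.1 (hs1 _ (le_max_right _ _))
    · obtain ⟨s1, hs1⟩ := att_complete hUm hUc (show Att U c t.1 t.2.1.length t.2.2.1 from h)
      exact (hno (max s0 s1) (le_max_left _ _)).2.2 (hs1 _ (le_max_right _ _))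
  · intro i hi
    set x := mkx t.2.1.length i with hx
    obtain ⟨q, hq1, hq2⟩ := hKb i hi
    have hKle := hK1 x q hq2
    by_cases h1 : K x < lo c t.1 t.2.1.length
    · left
      obtain ⟨p, hp1, hp2⟩ := hK2 x q hq2
      exact ⟨p, by omega, hp2⟩
    · right
      by_cases h2 : C x < Yp c t.1 + Dp c t.2.2.1
      · left
        obtain ⟨p, hp1, hp2⟩ := hC2 x
        exact ⟨p, by omega, hp2⟩
      · right
        obtain ⟨p, hp1, hp2⟩ := hadv x
        have hklo : lo c t.1 t.2.1.length = k0 c - t.2.1.length + Yp c t.1 - 4 := rfl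
        refine ⟨p, by omega, K x - lo c t.1 t.2.1.length, by omega, C x, ?_, by omega,
          hCb i hi⟩
        rw [show lo c t.1 t.2.1.length + (K x - lo c t.1 t.2.1.length) = K x by omega]
        exact hp2

end

end Pool.Agent.Helper94.KC
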