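import Pool.Agent.Helper94.KC.Strategy
import Pool.Agent.Helper94.KC.Count

/-! Order properties of the run (no assumption on the opponent needed). -/

set_option autoImplicit false

namespace Pool.Agent.Helper94.KC

section
variable {aV aW : ℕ → List Bool → Option (List Bool)}
  {aU : ℕ → List Bool × (List Bool × ℕ) → Option ℕ}

/-- The possible outcomes of one step. -/
theorem step_cases (c s : ℕ) (t : St) :
    (winS aV c s t.1 t.2.1.length ∧
      step aV aW aU c s t = (t.1 + 1, [], 0, (t.2.2.2 + 1) * 2 ^ t.2.1.length)) ∨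
    (spoS aW c s t.1 t.2.1.length t.2.2.1 ∧
      step aV aW aU c s t = (t.1, t.2.1 ++ [t.2.2.1], 0, t.2.2.2 / 2 + 1)) ∨
    (attS aU c s t.1 t.2.1.length t.2.2.1 ∧
      step aV aW aU c s t = (t.1, t.2.1, t.2.2.1 + 1, t.2.2.2)) ∨
    (¬ winS aV c s t.1 t.2.1.length ∧ ¬ spoS aW c s t.1 t.2.1.length t.2.2.1 ∧
      ¬ attS aU c s t.1 t.2.1.length t.2.2.1 ∧ step aV aW aU c s t = t) := by
  classical
  by_cases h1 : winS aV c s t.1 t.2.1.length
  · left; exact ⟨h1, by unfold step; rw [if_pos h1]⟩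
  · right
    by_cases h2 : spoS aW c s t.1 t.2.1.length t.2.2.1
    · left; exact ⟨h2, by unfold step; rw [if_neg h1, if_pos h2]⟩
    · right
      by_cases h3 : attS aU c s t.1 t.2.1.length t.2.2.1
      · left; exact ⟨h3, by unfold step; rw [if_neg h1, if_neg h2, if_pos h3]⟩
      · right; exact ⟨h1, h2, h3, by unfold step; rw [if_neg h1, if_neg h2, if_neg h3]⟩

/-- The pointer order. -/
def RelM (t u : St) : Prop :=
  (t.1 = u.1 ∧ t.2.1 = u.2.1 ∧ t.2.2.2 = u.2.2.2) ∨
    (t.2.2.2 + 1) * 2 ^ t.2.1.length ≤ u.2.2.2 * 2 ^ u.2.1.length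

theorem relM_step (c s : ℕ) (t : St) : RelM t (step aV aW aU c s t) := by
  rcases step_cases (aV := aV) (aW := aW) (aU := aU) c s t with
    ⟨_, h⟩ | ⟨_, h⟩ | ⟨_, h⟩ | ⟨_, _, _, h⟩
  · right; rw [h]; simp
  · right; rw [h]
    simp only [List.length_append, List.length_singleton]
    rw [pow_succ, show (t.2.2.2 / 2 + 1) * (2 ^ t.2.1.length * 2) =
      (2 * (t.2.2.2 / 2 + 1)) * 2 ^ t.2.1.length by ring]
    apply Nat.mul_le_mul_right
    omega
  · left; rw [h]; simp
  · left; rw [h]; simp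

theorem RelM.trans {t u v : St} (h1 : RelM t u) (h2 : RelM u v) : RelM t v := by
  rcases h1 with ⟨a1, a2, a3⟩ | h1
  · rcases h2 with ⟨b1, b2, b3⟩ | h2
    · left; exact ⟨a1.trans b1, a2.trans b2, a3.trans b3⟩
    · right; rw [a2, a3]; exact h2
  · rcases h2 with ⟨b1, b2, b3⟩ | h2
    · right; rw [← b2, ← b3]; exact h1
    · right
      refine h1.trans (le_trans ?_ h2)
      apply Nat.mul_le_mul_right
      omega

theorem relM_st (c : ℕ) {s t : ℕ} (h : s ≤ t) : RelM (st aV aW aU c s) (st aV aW aU c t) := by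
  induction t, h using Nat.le_induction with
  | base => left; simp
  | succ t _ ih => rw [st_succ]; exact ih.trans (relM_step c t _)

/-- The order of the lists of spoilt columns. -/
def RelN (t u : St) : Prop :=
  t.1 < u.1 ∨ (t.1 = u.1 ∧ ((t.2.1 = u.2.1 ∧ t.2.2.1 ≤ u.2.2.1) ∨
    ∃ r, t.2.2.1 ≤ r ∧ t.2.1 ++ [r] <+: u.2.1))

theorem relN_step (c s : ℕ) {t u : St} (h : RelN t u) : RelN t (step aV aW aU c s u) := by
  rcases step_cases (aV := aV) (aW := aW) (aU := aU) c s u with
    ⟨_, e⟩ | ⟨_, e⟩ | ⟨_, e⟩ | ⟨_, _, _, e⟩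
  · left; rw [e]; simp only
    rcases h with h | ⟨h, _⟩ <;> omega
  · rw [e]
    rcases h with h | ⟨h, h' | ⟨r, hr, hp⟩⟩
    · left; exact h
    · right; refine ⟨h, Or.inr ⟨u.2.2.1, h'.2, ?_⟩⟩
      simp only; rw [h'.1]
    · right; refine ⟨h, Or.inr ⟨r, hr, ?_⟩⟩
      exact hp.trans (List.prefix_append _ _)
  · rw [e]
    rcases h with h | ⟨h, h' | ⟨r, hr, hp⟩⟩
    · left; exact h
    · right; refine ⟨h, Or.inl ⟨h'.1, ?_⟩⟩
      simp only; omega
    · right; exact ⟨h, Or.inr ⟨r, hr, hp⟩⟩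
  · rw [e]; exact h

theorem relN_st (c : ℕ) {s t : ℕ} (h : s ≤ t) : RelN (st aV aW aU c s) (st aV aW aU c t) := by
  induction t, h using Nat.le_induction with
  | base => right; exact ⟨rfl, Or.inl ⟨rfl, le_rfl⟩⟩
  | succ t _ ih => rw [st_succ]; exact relN_step c t ih

theorem interval {n z z' : ℕ} {σ τ : List Bool} (h : σ <+: τ) (h1 : σ.length + z = n)
    (h2 : τ.length + z' = n) :
    val σ * 2 ^ z ≤ val τ * 2 ^ z' ∧ (val τ + 1) * 2 ^ z' ≤ (val σ + 1) * 2 ^ z := by
  obtain ⟨r, rfl⟩ := h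
  rw [List.length_append] at h2
  have hz : z = r.length + z' := by omega
  subst hz
  rw [val_append, pow_add]
  have hr := val_lt r
  constructor
  · rw [← mul_assoc]
    exact Nat.mul_le_mul_right _ (Nat.le_add_right _ _)
  · rw [← mul_assoc]
    apply Nat.mul_le_mul_right
    nlinarith

theorem disjoint_codes {c : ℕ} {t u : St} {p q : List Bool} (hp : okM c t p) (hq : okM c u q)
    (hpq : p <+: q) (hR : RelM t u ∨ RelM u t) :
    t.1 = u.1 ∧ t.2.1 = u.2.1 ∧ t.2.2.2 = u.2.2.2 := by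
  obtain ⟨hp1, hp2, hp3⟩ := hp
  obtain ⟨hq1, hq2, hq3⟩ := hq
  have hpl : (p.take (p.length - Yp c t.1)).length = p.length - Yp c t.1 := by
    rw [List.length_take]; omega
  have hql : (q.take (q.length - Yp c u.1)).length = q.length - Yp c u.1 := by
    rw [List.length_take]; omega
  have e1 : (p.take (p.length - Yp c t.1)).length + t.2.1.length = k0 c := by
    rw [hpl]; omega
  have e2 : (q.take (q.length - Yp c u.1)).length + u.2.1.length = k0 c := by
    rw [hql]; omega
  have c1 : p.take (p.length - Yp c t.1) <+: q := (List.take_prefix _ _).trans hpq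
  have c2 : q.take (q.length - Yp c u.1) <+: q := List.take_prefix _ _
  have key : t.2.2.2 * 2 ^ t.2.1.length < (u.2.2.2 + 1) * 2 ^ u.2.1.length ∧
      u.2.2.2 * 2 ^ u.2.1.length < (t.2.2.2 + 1) * 2 ^ t.2.1.length := by
    have hpos1 : 0 < 2 ^ t.2.1.length := by positivity
    have hpos2 : 0 < 2 ^ u.2.1.length := by positivity
    rcases List.prefix_or_prefix_of_prefix c1 c2 with h | h
    · obtain ⟨i1, i2⟩ := interval h e1 e2
      rw [hp3, hq3] at i1 i2
      constructor <;> nlinarith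
    · obtain ⟨i1, i2⟩ := interval h e2 e1
      rw [hp3, hq3] at i1 i2
      constructor <;> nlinarith
  rcases hR with (h | h) | (h | h)
  · exact h
  · omega
  · exact ⟨h.1.symm, h.2.1.symm, h.2.2.symm⟩
  · omega

theorem relM_or (c s t : ℕ) : RelM (st aV aW aU c s) (st aV aW aU c t) ∨
    RelM (st aV aW aU c t) (st aV aW aU c s) := by
  rcases le_total s t with h | h
  · exact Or.inl (relM_st c h)
  · exact Or.inr (relM_st c h)

theorem chkM_eq_some {c : ℕ} {t : St} {p x : List Bool} :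
    chkM c t p = some x ↔ okM c t p ∧ mkx t.2.1.length (p.drop (p.length - Yp c t.1)) = x := by
  unfold chkM
  split_ifs with h <;> simp [h]

theorem chkN_eq_some {c : ℕ} {t : St} {p x : List Bool} :
    chkN c t p = some x ↔ okN c t p ∧ mkx t.2.1.length (p.drop (Ep c (t.2.2.1 - 1))) = x := by
  unfold chkN
  split_ifs with h <;> simp [h]

theorem Lp_pos (c : ℕ) : 0 < Lp c := Nat.succ_pos _

theorem Yp_pos (c m : ℕ) : 0 < Yp c m := Nat.mul_pos (Nat.succ_pos _) (Lp_pos c)

theorem mkx_prefix {z z' : ℕ} {i i' : List Bool} (h : mkx z i <+: mkx z' i') :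
    z = z' ∧ i <+: i' := by
  induction z generalizing z' with
  | zero =>
    cases z' with
    | zero =>
      rw [mkx_zero, mkx_zero, List.cons_prefix_cons] at h
      exact ⟨rfl, h.2⟩
    | succ z' =>
      rw [mkx_zero, mkx_succ, List.cons_prefix_cons] at h
      simp at h
  | succ z ih =>
    cases z' with
    | zero =>
      rw [mkx_zero, mkx_succ, List.cons_prefix_cons] at h
      simp at h
    | succ z' =>
      rw [mkx_succ, mkx_succ, List.cons_prefix_cons] at h
      obtain ⟨h1, h2⟩ := ih h.2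
      exact ⟨by omega, h2⟩

theorem Mm_dom {p : List Bool} (h : (Mm aV aW aU p).Dom) :
    ∃ s, okM (lead p) (st aV aW aU (lead p) s) (rest p) := by
  obtain ⟨s, a, ha⟩ := Nat.rfindOpt_dom.1 h
  exact ⟨s, (chkM_eq_some.1 ha).1⟩

/-- Our prefix-free machine is prefix-free. -/
theorem Mm_prefixFree (p q : List Bool) (hp : (Mm aV aW aU p).Dom) (hq : (Mm aV aW aU q).Dom)
    (hpq : p <+: q) : p = q := by
  obtain ⟨s, hs⟩ := Mm_dom hp
  obtain ⟨t, ht⟩ := Mm_dom hq
  have hp0 : rest p ≠ [] := by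
    intro h
    have := hs.2.1
    rw [h] at this
    have := Yp_pos (lead p) (st aV aW aU (lead p) s).1
    simp at *
    omega
  have hq0 : rest q ≠ [] := by
    intro h
    have := ht.2.1
    rw [h] at this
    have := Yp_pos (lead q) (st aV aW aU (lead q) t).1
    simp at *
    omega
  have ep := mkx_lead_rest hp0
  have eq := mkx_lead_rest hq0
  rw [← ep, ← eq] at hpq
  obtain ⟨h1, h2⟩ := mkx_prefix hpq
  rw [← h1] at ht
  obtain ⟨a1, a2, _⟩ := disjoint_codes hs ht h2 (relM_or _ _ _)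
  have l1 := hs.1
  have l2 := ht.1
  rw [← a1, ← a2] at l2
  have : rest p = rest q := h2.eq_of_length (by omega)
  rw [← ep, ← eq, h1, this]

/-- Output of our prefix-free machine. -/
theorem Mm_output {c s : ℕ} {σ i : List Bool}
    (hσ : σ.length + (st aV aW aU c s).2.1.length = k0 c)
    (hv : val σ = (st aV aW aU c s).2.2.2) (hi : i.length = Yp c (st aV aW aU c s).1) :
    mkx (st aV aW aU c s).2.1.length i ∈ Mm aV aW aU (mkx c (σ ++ i)) := by
  have hok : okM c (st aV aW aU c s) (σ ++ i) := by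
    refine ⟨by rw [List.length_append]; omega, by rw [List.length_append]; omega, ?_⟩
    rw [List.length_append, hi, Nat.add_sub_cancel, List.take_left, hv]
  have hdom : (Mm aV aW aU (mkx c (σ ++ i))).Dom := by
    unfold Mm
    rw [lead_mkx, rest_mkx]
    exact Nat.rfindOpt_dom.2 ⟨s, _, chkM_eq_some.2 ⟨hok, rfl⟩⟩
  have hmem := Part.get_mem hdom
  generalize hx : (Mm aV aW aU (mkx c (σ ++ i))).get hdom = x at hmem
  have h2 := hmem
  unfold Mm at h2
  rw [lead_mkx, rest_mkx] at h2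
  obtain ⟨t, ht⟩ := Nat.rfindOpt_spec h2
  obtain ⟨ht1, ht2⟩ := chkM_eq_some.1 ht
  obtain ⟨a1, a2, _⟩ := disjoint_codes hok ht1 (List.prefix_refl _) (relM_or _ _ _)
  rw [← a1, ← a2, List.length_append, hi, Nat.add_sub_cancel, List.drop_left] at ht2
  rw [ht2]
  exact hmem

end

end Pool.Agent.Helper94.KC
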