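import Mathlib

/-! Enumeration of bit strings, counting lemmas, Kraft inequality. -/

set_option autoImplicit false

namespace Pool.Agent.Helper94.KC

/-- All bit strings of length `n`. -/
def allS : ℕ → List (List Bool)
  | 0 => [[]]
  | n + 1 => (allS n).map (List.cons false) ++ (allS n).map (List.cons true)

theorem mem_allS {n : ℕ} {l : List Bool} : l ∈ allS n ↔ l.length = n := by
  induction n generalizing l with
  | zero => simp [allS]
  | succ n ih =>
    cases l with
    | nil => simp [allS]
    | cons b l =>
      cases b <;> simp [allS, ih]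

theorem nodup_allS (n : ℕ) : (allS n).Nodup := by
  induction n with
  | zero => simp [allS]
  | succ n ih =>
    simp only [allS]
    rw [List.nodup_append]
    refine ⟨ih.map (fun a b h => by simpa using h), ih.map (fun a b h => by simpa using h), ?_⟩
    intro a ha b hb
    rw [List.mem_map] at ha hb
    obtain ⟨a', _, rfl⟩ := ha
    obtain ⟨b', _, rfl⟩ := hb
    simp

theorem length_allS (n : ℕ) : (allS n).length = 2 ^ n := by
  induction n with
  | zero => simp [allS]
  | succ n ih => simp [allS, ih, pow_succ]; ring

theorem primrec_allS : Primrec allS := by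
  have : allS = fun n => Nat.rec (motive := fun _ => List (List Bool)) [[]]
      (fun _ IH => IH.map (List.cons false) ++ IH.map (List.cons true)) n := by
    funext n
    induction n with
    | zero => rfl
    | succ n ih => simp only [allS, ih]
  rw [this]
  refine Primrec.nat_rec₁ _ ?_
  refine Primrec.list_append.comp₂ ?_ ?_
  · exact Primrec.list_map Primrec.snd
      (Primrec.list_cons.comp (Primrec.const false) Primrec.snd).to₂
  · exact Primrec.list_map Primrec.snd
      (Primrec.list_cons.comp (Primrec.const true) Primrec.snd).to₂

/-- All bit strings of length less than `n`. -/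
def allLt (n : ℕ) : List (List Bool) := (List.range n).flatMap allS

theorem mem_allLt {n : ℕ} {l : List Bool} : l ∈ allLt n ↔ l.length < n := by
  simp [allLt, mem_allS]

theorem primrec_allLt : Primrec allLt :=
  Primrec.list_flatMap Primrec.list_range (primrec_allS.comp Primrec.snd).to₂

theorem length_allLt (n : ℕ) : (allLt n).length + 1 = 2 ^ n := by
  induction n with
  | zero => simp [allLt]
  | succ n ih =>
    have : allLt (n + 1) = allLt n ++ allS n := by
      simp [allLt, List.range_succ]
    rw [this, List.length_append, length_allS, pow_succ]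
    omega

/-- Value of a bit string in binary. -/
def val (l : List Bool) : ℕ := l.foldl (fun n b => 2 * n + b.toNat) 0

theorem val_foldl (l : List Bool) (n : ℕ) :
    l.foldl (fun n b => 2 * n + b.toNat) n = n * 2 ^ l.length + val l := by
  induction l generalizing n with
  | nil => simp [val]
  | cons b l ih =>
    simp only [List.foldl_cons, val, List.length_cons]
    rw [ih, ih (2 * 0 + b.toNat), pow_succ]
    ring

theorem val_append (l r : List Bool) : val (l ++ r) = val l * 2 ^ r.length + val r := by
  rw [val, List.foldl_append, val_foldl]
  rfl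

theorem val_cons (b : Bool) (r : List Bool) : val (b :: r) = b.toNat * 2 ^ r.length + val r := by
  have := val_append [b] r
  simpa [val] using this

theorem val_lt (l : List Bool) : val l < 2 ^ l.length := by
  induction l with
  | nil => simp [val]
  | cons b l ih =>
    rw [val_cons, List.length_cons, pow_succ]
    cases b <;> simp <;> omega

theorem exists_val {k a : ℕ} (h : a < 2 ^ k) : ∃ l : List Bool, l.length = k ∧ val l = a := by
  induction k generalizing a with
  | zero => exact ⟨[], rfl, by simp at h; simp [val, h]⟩
  | succ k ih =>
    by_cases hk : a < 2 ^ k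
    · obtain ⟨l, hl, hv⟩ := ih hk
      exact ⟨false :: l, by simp [hl], by rw [val_cons]; simp [hv]⟩
    · push Not at hk
      have : a - 2 ^ k < 2 ^ k := by rw [pow_succ] at h; omega
      obtain ⟨l, hl, hv⟩ := ih this
      exact ⟨true :: l, by simp [hl], by rw [val_cons]; simp [hv, hl]; omega⟩

theorem primrec_val : Primrec val := by
  refine Primrec.list_foldl (f := fun l : List Bool => l) (g := fun _ => 0)
    (h := fun _ (p : ℕ × Bool) => 2 * p.1 + p.2.toNat) Primrec.id (Primrec.const 0) ?_
  refine Primrec.nat_add.comp ?_ ?_
  · exact Primrec.nat_mul.comp (Primrec.const 2) (Primrec.fst.comp Primrec.snd)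
  · exact (Primrec.dom_bool _).comp (Primrec.snd.comp Primrec.snd)

/-- The string `1^z 0 i`. -/
def mkx (z : ℕ) (i : List Bool) : List Bool :=
  Nat.rec (motive := fun _ => List Bool) (false :: i) (fun _ IH => true :: IH) z

theorem mkx_zero (i : List Bool) : mkx 0 i = false :: i := rfl

theorem mkx_succ (z : ℕ) (i : List Bool) : mkx (z + 1) i = true :: mkx z i := rfl

theorem mkx_inj {z z' : ℕ} {i i' : List Bool} (h : mkx z i = mkx z' i') : z = z' ∧ i = i' := by
  induction z generalizing z' with
  | zero =>
    cases z' with
    | zero => simpa [mkx_zero] using h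
    | succ z' => simp [mkx_zero, mkx_succ] at h
  | succ z ih =>
    cases z' with
    | zero => simp [mkx_zero, mkx_succ] at h
    | succ z' =>
      rw [mkx_succ, mkx_succ, List.cons.injEq] at h
      obtain ⟨h1, h2⟩ := ih h.2
      exact ⟨by omega, h2⟩

theorem primrec_mkx : Primrec₂ mkx := by
  refine Primrec.nat_rec' (f := fun p : ℕ × List Bool => p.1) (g := fun p => false :: p.2)
    (h := fun _ (q : ℕ × List Bool) => true :: q.2) Primrec.fst ?_ ?_
  · exact Primrec.list_cons.comp (Primrec.const false) Primrec.snd
  · exact Primrec.list_cons.comp (Primrec.const true) (Primrec.snd.comp Primrec.snd)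

/-- `P` holds for at least a quarter of the strings of length `y`. -/
def Big (y : ℕ) (P : List Bool → Prop) : Prop :=
  2 ^ y ≤ 4 * (@List.filter (List Bool) (fun i => @decide (P i) (Classical.propDecidable _))
    (allS y)).length

theorem primrecPred_big {γ : Type} [Primcodable γ] {R : List Bool → γ → Prop}
    (hR : PrimrecRel R) {y : γ → ℕ} (hy : Primrec y) :
    PrimrecPred (fun g => Big (y g) (fun i => R i g)) := by
  classical
  have h2 : Primrec (fun n : ℕ => 2 ^ n) :=
    (Primrec₂.unpaired'.1 Nat.Primrec.pow).comp (Primrec.const 2) Primrec.id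
  refine Primrec.nat_le.comp (h2.comp hy) ?_
  refine Primrec.nat_mul.comp (Primrec.const 4) (Primrec.list_length.comp ?_)
  have := (PrimrecRel.listFilter hR).comp (primrec_allS.comp hy) Primrec.id
  refine this.of_eq ?_
  intro g
  simp only [id]

theorem primrecPred_exLt {γ : Type} [Primcodable γ] {R : List Bool → γ → Prop}
    (hR : PrimrecRel R) {n : γ → ℕ} (hn : Primrec n) :
    PrimrecPred (fun g => ∃ p ∈ allLt (n g), R p g) :=
  hR.exists_mem_list.comp (primrec_allLt.comp hn) Primrec.id

end Pool.Agent.Helper94.KC
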