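import Pool.Agent.Helper94.KC.Approx
import Pool.Agent.Helper94.KC.Strings

/-! The strategy: parameters, states, machines, and their primitive recursiveness. -/

set_option autoImplicit false

namespace Pool.Agent.Helper94.KC

section Helpers

variable {α : Type} [Primcodable α]

theorem P_add {f g : α → ℕ} (hf : Primrec f) (hg : Primrec g) : Primrec fun a => f a + g a :=
  Primrec.nat_add.comp hf hg

theorem P_sub {f g : α → ℕ} (hf : Primrec f) (hg : Primrec g) : Primrec fun a => f a - g a :=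
  Primrec.nat_sub.comp hf hg

theorem P_mul {f g : α → ℕ} (hf : Primrec f) (hg : Primrec g) : Primrec fun a => f a * g a :=
  Primrec.nat_mul.comp hf hg

theorem P_div {f g : α → ℕ} (hf : Primrec f) (hg : Primrec g) : Primrec fun a => f a / g a :=
  Primrec.nat_div.comp hf hg

theorem P_pow {f g : α → ℕ} (hf : Primrec f) (hg : Primrec g) : Primrec fun a => f a ^ g a :=
  (Primrec₂.unpaired'.1 Nat.Primrec.pow).comp hf hg

theorem P_exRange {R : ℕ → α → Prop} (hR : PrimrecRel R) {n : α → ℕ} (hn : Primrec n) :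
    PrimrecPred (fun g => ∃ k < n g, R k g) :=
  (hR.exists_mem_list.comp (Primrec.list_range.comp hn) Primrec.id).of_eq (by simp)

end Helpers

/-! ### Parameters -/

def Jp (c : ℕ) : ℕ := 4 * (2 * c + 6) * 2 ^ (c + 1)
def Bp (c : ℕ) : ℕ := 2 * c + 2
def Dp (c j : ℕ) : ℕ := (Jp c + 1 - j) * (Bp c + 3)
def Ep (c j : ℕ) : ℕ := Dp c j - Bp c
def Zp (c : ℕ) : ℕ := 2 ^ (Dp c 0 + 2)
def k0 (c : ℕ) : ℕ := Zp c + 6
def Lp (c : ℕ) : ℕ := Dp c 0 + 1
def Yp (c m : ℕ) : ℕ := (m + 1) * Lp c

section
variable {α : Type} [Primcodable α] {f g : α → ℕ}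

theorem P_Jp (hf : Primrec f) : Primrec fun a => Jp (f a) :=
  P_mul (P_mul (Primrec.const 4) (P_add (P_mul (Primrec.const 2) hf) (Primrec.const 6)))
    (P_pow (Primrec.const 2) (P_add hf (Primrec.const 1)))

theorem P_Bp (hf : Primrec f) : Primrec fun a => Bp (f a) :=
  P_add (P_mul (Primrec.const 2) hf) (Primrec.const 2)

theorem P_Dp (hf : Primrec f) (hg : Primrec g) : Primrec fun a => Dp (f a) (g a) :=
  P_mul (P_sub (P_add (P_Jp hf) (Primrec.const 1)) hg) (P_add (P_Bp hf) (Primrec.const 3))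

theorem P_Ep (hf : Primrec f) (hg : Primrec g) : Primrec fun a => Ep (f a) (g a) :=
  P_sub (P_Dp hf hg) (P_Bp hf)

theorem P_Zp (hf : Primrec f) : Primrec fun a => Zp (f a) :=
  P_pow (Primrec.const 2) (P_add (P_Dp hf (Primrec.const 0)) (Primrec.const 2))

theorem P_k0 (hf : Primrec f) : Primrec fun a => k0 (f a) :=
  P_add (P_Zp hf) (Primrec.const 6)

theorem P_Lp (hf : Primrec f) : Primrec fun a => Lp (f a) :=
  P_add (P_Dp hf (Primrec.const 0)) (Primrec.const 1)

theorem P_Yp (hf : Primrec f) (hg : Primrec g) : Primrec fun a => Yp (f a) (g a) :=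
  P_mul (P_add hg (Primrec.const 1)) (P_Lp hf)

end

/-! ### Conditions -/

/-- The lower end of the window for the prefix complexity. -/
def lo (c m z : ℕ) : ℕ := k0 c - z + Yp c m - 4

def winS (aV : ℕ → List Bool → Option (List Bool)) (c s m z : ℕ) : Prop :=
  Big (Yp c m) (fun i => ∃ p ∈ allLt (lo c m z), aV s p = some (mkx z i))

def spoS (aW : ℕ → List Bool → Option (List Bool)) (c s m z j : ℕ) : Prop :=
  Big (Yp c m) (fun i => ∃ p ∈ allLt (Yp c m + Dp c j), aW s p = some (mkx z i))

def attS (aU : ℕ → List Bool × (List Bool × ℕ) → Option ℕ) (c s m z j : ℕ) : Prop :=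
  Big (Yp c m) (fun i => ∃ p ∈ allLt (c + 1), ∃ k < 2 * c + 6, ∃ v < s,
    aU s (p, (mkx z i, lo c m z + k)) = some v ∧ Yp c m + Dp c j ≤ v ∧
      (j = 0 ∨ v < Yp c m + Dp c (j - 1)))

section
variable {α : Type} [Primcodable α] {fc fs fm fz fj : α → ℕ}

theorem P_lo (hc : Primrec fc) (hm : Primrec fm) (hz : Primrec fz) :
    Primrec fun a => lo (fc a) (fm a) (fz a) :=
  P_sub (P_add (P_sub (P_k0 hc) hz) (P_Yp hc hm)) (Primrec.const 4)

theorem P_winS {aV : ℕ → List Bool → Option (List Bool)} (hV : Primrec₂ aV)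
    (hc : Primrec fc) (hs : Primrec fs) (hm : Primrec fm) (hz : Primrec fz) :
    PrimrecPred fun a => winS aV (fc a) (fs a) (fm a) (fz a) := by
  unfold winS
  refine primrecPred_big (R := fun i a => ∃ p ∈ allLt (lo (fc a) (fm a) (fz a)),
    aV (fs a) p = some (mkx (fz a) i)) ?_ (P_Yp hc hm)
  refine primrecPred_exLt (γ := List Bool × α)
    (R := fun p g => aV (fs g.2) p = some (mkx (fz g.2) g.1)) ?_
    (P_lo (hc.comp Primrec.snd) (hm.comp Primrec.snd) (hz.comp Primrec.snd))
  refine Primrec.eq.comp (hV.comp (hs.comp (Primrec.snd.comp Primrec.snd)) Primrec.fst) ?_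
  exact Primrec.option_some.comp (primrec_mkx.comp (hz.comp (Primrec.snd.comp Primrec.snd))
    (Primrec.fst.comp Primrec.snd))

theorem P_spoS {aW : ℕ → List Bool → Option (List Bool)} (hW : Primrec₂ aW)
    (hc : Primrec fc) (hs : Primrec fs) (hm : Primrec fm) (hz : Primrec fz) (hj : Primrec fj) :
    PrimrecPred fun a => spoS aW (fc a) (fs a) (fm a) (fz a) (fj a) := by
  unfold spoS
  refine primrecPred_big (R := fun i a => ∃ p ∈ allLt (Yp (fc a) (fm a) + Dp (fc a) (fj a)),
    aW (fs a) p = some (mkx (fz a) i)) ?_ (P_Yp hc hm)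
  refine primrecPred_exLt (γ := List Bool × α)
    (R := fun p g => aW (fs g.2) p = some (mkx (fz g.2) g.1)) ?_
    (P_add (P_Yp (hc.comp Primrec.snd) (hm.comp Primrec.snd))
      (P_Dp (hc.comp Primrec.snd) (hj.comp Primrec.snd)))
  refine Primrec.eq.comp (hW.comp (hs.comp (Primrec.snd.comp Primrec.snd)) Primrec.fst) ?_
  exact Primrec.option_some.comp (primrec_mkx.comp (hz.comp (Primrec.snd.comp Primrec.snd))
    (Primrec.fst.comp Primrec.snd))

theorem P_attS {aU : ℕ → List Bool × (List Bool × ℕ) → Option ℕ} (hU : Primrec₂ aU)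
    (hc : Primrec fc) (hs : Primrec fs) (hm : Primrec fm) (hz : Primrec fz) (hj : Primrec fj) :
    PrimrecPred fun a => attS aU (fc a) (fs a) (fm a) (fz a) (fj a) := by
  unfold attS
  refine primrecPred_big (R := fun i a => ∃ p ∈ allLt (fc a + 1), ∃ k < 2 * fc a + 6, ∃ v < fs a,
    aU (fs a) (p, (mkx (fz a) i, lo (fc a) (fm a) (fz a) + k)) = some v ∧
      Yp (fc a) (fm a) + Dp (fc a) (fj a) ≤ v ∧
      (fj a = 0 ∨ v < Yp (fc a) (fm a) + Dp (fc a) (fj a - 1))) ?_ (P_Yp hc hm)
  refine primrecPred_exLt (γ := List Bool × α)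
    (R := fun p g => ∃ k < 2 * fc g.2 + 6, ∃ v < fs g.2,
    aU (fs g.2) (p, (mkx (fz g.2) g.1, lo (fc g.2) (fm g.2) (fz g.2) + k)) = some v ∧
      Yp (fc g.2) (fm g.2) + Dp (fc g.2) (fj g.2) ≤ v ∧
      (fj g.2 = 0 ∨ v < Yp (fc g.2) (fm g.2) + Dp (fc g.2) (fj g.2 - 1))) ?_
    (P_add (hc.comp Primrec.snd) (Primrec.const 1))
  refine P_exRange (α := List Bool × (List Bool × α))
    (R := fun k g => ∃ v < fs g.2.2,
    aU (fs g.2.2) (g.1, (mkx (fz g.2.2) g.2.1, lo (fc g.2.2) (fm g.2.2) (fz g.2.2) + k)) = some v ∧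
      Yp (fc g.2.2) (fm g.2.2) + Dp (fc g.2.2) (fj g.2.2) ≤ v ∧
      (fj g.2.2 = 0 ∨ v < Yp (fc g.2.2) (fm g.2.2) + Dp (fc g.2.2) (fj g.2.2 - 1))) ?_
    (P_add (P_mul (Primrec.const 2) (hc.comp (Primrec.snd.comp Primrec.snd))) (Primrec.const 6))
  refine P_exRange (α := ℕ × (List Bool × (List Bool × α)))
    (R := fun v g =>
    aU (fs g.2.2.2) (g.2.1, (mkx (fz g.2.2.2) g.2.2.1,
        lo (fc g.2.2.2) (fm g.2.2.2) (fz g.2.2.2) + g.1)) = some v ∧
      Yp (fc g.2.2.2) (fm g.2.2.2) + Dp (fc g.2.2.2) (fj g.2.2.2) ≤ v ∧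
      (fj g.2.2.2 = 0 ∨ v < Yp (fc g.2.2.2) (fm g.2.2.2) + Dp (fc g.2.2.2) (fj g.2.2.2 - 1))) ?_
    (hs.comp (Primrec.snd.comp (Primrec.snd.comp Primrec.snd)))
  -- the innermost context: `(v, k, p, i, a)`
  have e1 : Primrec (fun g : ℕ × (ℕ × (List Bool × (List Bool × α))) => g.2.2.2.2) :=
    Primrec.snd.comp (Primrec.snd.comp (Primrec.snd.comp Primrec.snd))
  have hY := P_Yp (hc.comp e1) (hm.comp e1)
  refine PrimrecPred.and ?_ (PrimrecPred.and ?_ (PrimrecPred.or ?_ ?_))
  · refine Primrec.eq.comp (hU.comp (hs.comp e1) ?_) (Primrec.option_some.comp Primrec.fst)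
    refine Primrec.pair (Primrec.fst.comp (Primrec.snd.comp Primrec.snd)) (Primrec.pair ?_ ?_)
    · exact primrec_mkx.comp (hz.comp e1)
        (Primrec.fst.comp (Primrec.snd.comp (Primrec.snd.comp Primrec.snd)))
    · exact P_add (P_lo (hc.comp e1) (hm.comp e1) (hz.comp e1)) (Primrec.fst.comp Primrec.snd)
  · exact Primrec.nat_le.comp (P_add hY (P_Dp (hc.comp e1) (hj.comp e1))) Primrec.fst
  · exact Primrec.eq.comp (hj.comp e1) (Primrec.const 0)
  · exact Primrec.nat_lt.comp Primrec.fst
      (P_add hY (P_Dp (hc.comp e1) (P_sub (hj.comp e1) (Primrec.const 1))))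

end

/-! ### The state sequence -/

/-- A state `(m, sp, j, a)`. -/
abbrev St : Type := ℕ × List ℕ × ℕ × ℕ

section
variable (aV aW : ℕ → List Bool → Option (List Bool))
  (aU : ℕ → List Bool × (List Bool × ℕ) → Option ℕ)

open Classical in
noncomputable def step (c s : ℕ) (t : St) : St :=
  if winS aV c s t.1 t.2.1.length then (t.1 + 1, [], 0, (t.2.2.2 + 1) * 2 ^ t.2.1.length)
  else if spoS aW c s t.1 t.2.1.length t.2.2.1 then
    (t.1, t.2.1 ++ [t.2.2.1], 0, t.2.2.2 / 2 + 1)
  else if attS aU c s t.1 t.2.1.length t.2.2.1 then (t.1, t.2.1, t.2.2.1 + 1, t.2.2.2)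
  else t

noncomputable def st (c : ℕ) (s : ℕ) : St :=
  Nat.rec (motive := fun _ => St) (0, [], 0, 0) (fun s IH => step aV aW aU c s IH) s

theorem st_zero (c : ℕ) : st aV aW aU c 0 = (0, [], 0, 0) := rfl

theorem st_succ (c s : ℕ) : st aV aW aU c (s + 1) = step aV aW aU c s (st aV aW aU c s) := rfl

variable {aV aW aU}

theorem P_step (hV : Primrec₂ aV) (hW : Primrec₂ aW) (hU : Primrec₂ aU) :
    Primrec (fun g : ℕ × ℕ × St => step aV aW aU g.1 g.2.1 g.2.2) := by
  classical
  have hc : Primrec (fun g : ℕ × ℕ × St => g.1) := Primrec.fst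
  have hs : Primrec (fun g : ℕ × ℕ × St => g.2.1) := Primrec.fst.comp Primrec.snd
  have ht : Primrec (fun g : ℕ × ℕ × St => g.2.2) := Primrec.snd.comp Primrec.snd
  have hm : Primrec (fun g : ℕ × ℕ × St => g.2.2.1) := Primrec.fst.comp ht
  have hsp : Primrec (fun g : ℕ × ℕ × St => g.2.2.2.1) := Primrec.fst.comp (Primrec.snd.comp ht)
  have hz : Primrec (fun g : ℕ × ℕ × St => g.2.2.2.1.length) := Primrec.list_length.comp hsp
  have hj : Primrec (fun g : ℕ × ℕ × St => g.2.2.2.2.1) :=
    Primrec.fst.comp (Primrec.snd.comp (Primrec.snd.comp ht))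
  have ha : Primrec (fun g : ℕ × ℕ × St => g.2.2.2.2.2) :=
    Primrec.snd.comp (Primrec.snd.comp (Primrec.snd.comp ht))
  unfold step
  refine Primrec.ite (P_winS hV hc hs hm hz) ?_
    (Primrec.ite (P_spoS hW hc hs hm hz hj) ?_ (Primrec.ite (P_attS hU hc hs hm hz hj) ?_ ht))
  · refine Primrec.pair (P_add hm (Primrec.const 1)) (Primrec.pair (Primrec.const [])
      (Primrec.pair (Primrec.const 0) ?_))
    exact P_mul (P_add ha (Primrec.const 1)) (P_pow (Primrec.const 2) hz)
  · refine Primrec.pair hm (Primrec.pair ?_ (Primrec.pair (Primrec.const 0) ?_))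
    · exact Primrec.list_append.comp hsp (Primrec.list_cons.comp hj (Primrec.const []))
    · exact P_add (P_div ha (Primrec.const 2)) (Primrec.const 1)
  · exact Primrec.pair hm (Primrec.pair hsp (Primrec.pair (P_add hj (Primrec.const 1)) ha))

theorem P_st (hV : Primrec₂ aV) (hW : Primrec₂ aW) (hU : Primrec₂ aU) :
    Primrec₂ (fun c s : ℕ => st aV aW aU c s) := by
  refine Primrec.nat_rec' (f := fun p : ℕ × ℕ => p.2) (g := fun _ => ((0, [], 0, 0) : St))
    (h := fun p (q : ℕ × St) => step aV aW aU p.1 q.1 q.2) Primrec.snd (Primrec.const _) ?_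
  exact (P_step hV hW hU).comp (Primrec.pair (Primrec.fst.comp Primrec.fst)
    (Primrec.pair (Primrec.fst.comp Primrec.snd) (Primrec.snd.comp Primrec.snd)))

end

/-! ### The machines -/

/-- Check whether the program `p` is described by the state `t` (prefix-free part). -/
def okM (c : ℕ) (t : St) (p : List Bool) : Prop :=
  p.length + t.2.1.length = k0 c + Yp c t.1 ∧ Yp c t.1 ≤ p.length ∧
    val (p.take (p.length - Yp c t.1)) = t.2.2.2

instance (c : ℕ) (t : St) (p : List Bool) : Decidable (okM c t p) := by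
  unfold okM; infer_instance

def chkM (c : ℕ) (t : St) (p : List Bool) : Option (List Bool) :=
  if okM c t p then some (mkx t.2.1.length (p.drop (p.length - Yp c t.1))) else none

/-- Check whether the program `p` is described by the state `t` (plain part). -/
def okN (c : ℕ) (t : St) (p : List Bool) : Prop :=
  1 ≤ t.2.2.1 ∧ p.length = Yp c t.1 + Ep c (t.2.2.1 - 1) ∧
    val (p.take (Ep c (t.2.2.1 - 1))) = (t.2.1.filter (fun r => decide (t.2.2.1 ≤ r))).length

instance (c : ℕ) (t : St) (p : List Bool) : Decidable (okN c t p) := by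
  unfold okN; infer_instance

def chkN (c : ℕ) (t : St) (p : List Bool) : Option (List Bool) :=
  if okN c t p then some (mkx t.2.1.length (p.drop (Ep c (t.2.2.1 - 1)))) else none

section
variable {α : Type} [Primcodable α] {fc : α → ℕ} {ft : α → St} {fp : α → List Bool}

theorem P_chkM (hc : Primrec fc) (ht : Primrec ft) (hp : Primrec fp) :
    Primrec fun a => chkM (fc a) (ft a) (fp a) := by
  have hm : Primrec (fun g : α => (ft g).1) := Primrec.fst.comp ht
  have hsp : Primrec (fun g : α => (ft g).2.1) := Primrec.fst.comp (Primrec.snd.comp ht)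
  have hz : Primrec (fun g : α => (ft g).2.1.length) := Primrec.list_length.comp hsp
  have ha : Primrec (fun g : α => (ft g).2.2.2) :=
    Primrec.snd.comp (Primrec.snd.comp (Primrec.snd.comp ht))
  have hl : Primrec (fun g : α => (fp g).length) := Primrec.list_length.comp hp
  have hY := P_Yp hc hm
  have hd := P_sub hl hY
  unfold chkM
  refine Primrec.ite ?_ ?_ (Primrec.const none)
  · unfold okM
    refine PrimrecPred.and ?_ (PrimrecPred.and ?_ ?_)
    · exact Primrec.eq.comp (P_add hl hz) (P_add (P_k0 hc) hY)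
    · exact Primrec.nat_le.comp hY hl
    · exact Primrec.eq.comp (primrec_val.comp (Primrec.list_take.comp hd hp)) ha
  · exact Primrec.option_some.comp (primrec_mkx.comp hz (Primrec.list_drop.comp hd hp))

theorem P_chkN (hc : Primrec fc) (ht : Primrec ft) (hp : Primrec fp) :
    Primrec fun a => chkN (fc a) (ft a) (fp a) := by
  have hm : Primrec (fun g : α => (ft g).1) := Primrec.fst.comp ht
  have hsp : Primrec (fun g : α => (ft g).2.1) := Primrec.fst.comp (Primrec.snd.comp ht)
  have hz : Primrec (fun g : α => (ft g).2.1.length) := Primrec.list_length.comp hsp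
  have hj : Primrec (fun g : α => (ft g).2.2.1) :=
    Primrec.fst.comp (Primrec.snd.comp (Primrec.snd.comp ht))
  have hl : Primrec (fun g : α => (fp g).length) := Primrec.list_length.comp hp
  have hY := P_Yp hc hm
  have hE := P_Ep hc (P_sub hj (Primrec.const 1))
  unfold chkN
  refine Primrec.ite ?_ ?_ (Primrec.const none)
  · unfold okN
    refine PrimrecPred.and ?_ (PrimrecPred.and ?_ ?_)
    · exact Primrec.nat_le.comp (Primrec.const 1) hj
    · exact Primrec.eq.comp hl (P_add hY hE)
    · refine Primrec.eq.comp (primrec_val.comp (Primrec.list_take.comp hE hp)) ?_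
      refine Primrec.list_length.comp ?_
      have hR : PrimrecRel (fun (r : ℕ) (j : ℕ) => j ≤ r) :=
        Primrec.nat_le.comp Primrec.snd Primrec.fst
      exact (PrimrecRel.listFilter hR).comp hsp hj
  · exact Primrec.option_some.comp (primrec_mkx.comp hz (Primrec.list_drop.comp hE hp))

end

/-- Parsing: the number of leading ones. -/
def lead (p : List Bool) : ℕ := (p.takeWhile (fun b => b)).length

/-- Parsing: what remains after `1^z 0`. -/
def rest (p : List Bool) : List Bool := (p.dropWhile (fun b => b)).tail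

theorem lead_mkx (z : ℕ) (i : List Bool) : lead (mkx z i) = z := by
  induction z with
  | zero => simp [lead, mkx_zero]
  | succ z ih => rw [mkx_succ]; simpa [lead] using ih

theorem rest_mkx (z : ℕ) (i : List Bool) : rest (mkx z i) = i := by
  induction z with
  | zero => simp [rest, mkx_zero]
  | succ z ih => rw [mkx_succ]; simpa [rest] using ih

theorem mkx_lead_rest {p : List Bool} (h : rest p ≠ []) : mkx (lead p) (rest p) = p := by
  induction p with
  | nil => simp [rest] at h
  | cons b p ih =>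
    cases b with
    | false => simp [lead, rest, mkx_zero]
    | true =>
      have h1 : lead (true :: p) = lead p + 1 := by simp [lead]
      have h2 : rest (true :: p) = rest p := by simp [rest]
      rw [h2] at h
      rw [h1, h2, mkx_succ, ih h]

theorem length_mkx (z : ℕ) (i : List Bool) : (mkx z i).length = z + 1 + i.length := by
  induction z with
  | zero => simp [mkx_zero]; omega
  | succ z ih => rw [mkx_succ, List.length_cons, ih]; omega

theorem P_lead : Primrec lead :=
  Primrec.list_length.comp (Primrec.list_takeWhile Primrec.id)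

theorem P_rest : Primrec rest :=
  Primrec.list_tail.comp (Primrec.list_dropWhile Primrec.id)

section
variable (aV aW : ℕ → List Bool → Option (List Bool))
  (aU : ℕ → List Bool × (List Bool × ℕ) → Option ℕ)

/-- Our prefix-free machine. -/
noncomputable def Mm (p : List Bool) : Part (List Bool) :=
  Nat.rfindOpt (fun s => chkM (lead p) (st aV aW aU (lead p) s) (rest p))

/-- Our plain machine. -/
noncomputable def Nm (p : List Bool) : Part (List Bool) :=
  Nat.rfindOpt (fun s => chkN (lead p) (st aV aW aU (lead p) s) (rest p))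

variable {aV aW aU}

theorem partrec_Mm (hV : Primrec₂ aV) (hW : Primrec₂ aW) (hU : Primrec₂ aU) :
    Partrec (Mm aV aW aU) := by
  refine Partrec.rfindOpt (Primrec.to_comp ?_)
  exact P_chkM (P_lead.comp Primrec.fst)
    ((P_st hV hW hU).comp (P_lead.comp Primrec.fst) Primrec.snd) (P_rest.comp Primrec.fst)

theorem partrec_Nm (hV : Primrec₂ aV) (hW : Primrec₂ aW) (hU : Primrec₂ aU) :
    Partrec (Nm aV aW aU) := by
  refine Partrec.rfindOpt (Primrec.to_comp ?_)
  exact P_chkN (P_lead.comp Primrec.fst)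
    ((P_st hV hW hU).comp (P_lead.comp Primrec.fst) Primrec.snd) (P_rest.comp Primrec.fst)

end

end Pool.Agent.Helper94.KC
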